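import Mathlib

/-!
# Project G2 (MP_5f0082_gt): superderivations, elimination of an odd coordinate, brackets

Pure superalgebra (`A` with its parity involution `s`).
`psi v d a = a - v * d a` for an odd `v` with `d v = 1`, `d` an odd superderivation of square zero:
projection onto `ker d`, multiplicative. Brackets of `r - κ r_y`, `E - α r_y` if these kill `u`.
-/

set_option autoImplicit false

namespace AnWL.Nd

variable {A : Type} [Ring A] [Algebra ℚ A]

/-- Parity involution of a superalgebra. -/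
structure Sg (s : A →ₐ[ℚ] A) : Prop where
  s_s : ∀ a, s (s a) = a
  even_comm : ∀ a b, s a = a → a * b = b * a
  odd_anti : ∀ a b, s a = -a → s b = -b → a * b = -(b * a)

/-- Odd superderivations. -/
structure OD (s : A →ₐ[ℚ] A) (d : A →ₗ[ℚ] A) : Prop where
  mul : ∀ a b, d (a * b) = d a * b + s a * d b
  sg : ∀ a, s (d a) = -d (s a)

/-- Even superderivations. -/
structure ED (s : A →ₐ[ℚ] A) (d : A →ₗ[ℚ] A) : Prop where
  mul : ∀ a b, d (a * b) = d a * b + a * d b
  sg : ∀ a, s (d a) = d (s a)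

section basic
variable {s : A →ₐ[ℚ] A}

theorem two_cancel {a b : A} (h : a + a = b + b) : a = b := by
  have h1 : (2 : ℚ) • a = (2 : ℚ) • b := by rw [two_smul, two_smul]; exact h
  have h2 := congrArg (fun x => ((2 : ℚ)⁻¹) • x) h1
  simpa [smul_smul] using h2

theorem Sg.odd_mul (hs : Sg s) {a : A} (ha : s a = -a) (b : A) : a * b = s b * a := by
  have h1 : a * (b + s b) = (b + s b) * a :=
    (hs.even_comm _ _ (by rw [map_add, hs.s_s, add_comm])).symm
  have h2 : a * (b - s b) = -((b - s b) * a) :=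
    hs.odd_anti _ _ ha (by rw [map_sub, hs.s_s]; abel)
  apply two_cancel
  have h3 : a * b + a * b = a * (b + s b) + a * (b - s b) := by
    rw [← mul_add, ← mul_add, add_add_sub_cancel]
  rw [h3, h1, h2, add_mul, sub_mul]
  abel

theorem Sg.mul_odd (hs : Sg s) {a : A} (ha : s a = -a) (b : A) : b * a = a * s b := by
  rw [hs.odd_mul ha, hs.s_s]

theorem Sg.odd_sq (hs : Sg s) {a : A} (ha : s a = -a) : a * a = 0 := by
  have h := hs.odd_anti a a ha ha
  apply two_cancel
  rw [add_zero]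
  nth_rewrite 1 [h]
  rw [neg_add_cancel]

theorem Sg.odd_mul_mul (hs : Sg s) {a : A} (ha : s a = -a) (b : A) : a * b * a = 0 := by
  rw [hs.odd_mul ha, mul_assoc, hs.odd_sq ha, mul_zero]

theorem Sg.inv_even (hs : Sg s) {w wi : A} (hw : s w = w) (h : w * wi = 1) : s wi = wi := by
  have h1 : w * s wi = 1 := by
    have := congrArg s h
    rwa [map_mul, hw, map_one] at this
  have h2 : wi * w = 1 := by rw [← hs.even_comm _ _ hw]; exact h
  calc s wi = (wi * w) * s wi := by rw [h2, one_mul]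
    _ = wi := by rw [mul_assoc, h1, mul_one]

theorem Sg.inv_comm (hs : Sg s) {w wi : A} (hw : s w = w) (h : w * wi = 1) : wi * w = 1 := by
  rw [← hs.even_comm _ _ hw]; exact h

theorem OD.one {d : A →ₗ[ℚ] A} (hd : OD s d) : d 1 = 0 := by
  have h := hd.mul 1 1
  rw [mul_one, mul_one, map_one s, one_mul] at h
  exact left_eq_add.1 h

theorem ED.one {d : A →ₗ[ℚ] A} (hd : ED s d) : d 1 = 0 := by
  have h := hd.mul 1 1
  rw [mul_one, one_mul, mul_one] at h
  exact left_eq_add.1 h

theorem OD.inv (hs : Sg s) {d : A →ₗ[ℚ] A} (hd : OD s d) {w wi : A} (hw : s w = w)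
    (h : w * wi = 1) : d wi = -(wi * d w * wi) := by
  have h1 := hd.mul w wi
  rw [h, hd.one, hw] at h1
  have h2 := hs.inv_comm hw h
  have h3 : wi * (d w * wi) + wi * (w * d wi) = 0 := by rw [← mul_add, ← h1, mul_zero]
  rw [← mul_assoc wi w, h2, one_mul, ← mul_assoc] at h3
  exact eq_neg_of_add_eq_zero_right h3

theorem ED.inv (hs : Sg s) {d : A →ₗ[ℚ] A} (hd : ED s d) {w wi : A} (hw : s w = w)
    (h : w * wi = 1) : d wi = -(wi * d w * wi) := by
  have h1 := hd.mul w wi
  rw [h, hd.one] at h1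
  have h2 := hs.inv_comm hw h
  have h3 : wi * (d w * wi) + wi * (w * d wi) = 0 := by rw [← mul_add, ← h1, mul_zero]
  rw [← mul_assoc wi w, h2, one_mul, ← mul_assoc] at h3
  exact eq_neg_of_add_eq_zero_right h3

/-- `d` even element times an odd superderivation. -/
theorem OD.sub_smul (hs : Sg s) {d e : A →ₗ[ℚ] A} (hd : OD s d) (he : OD s e) {k : A}
    (hk : s k = k) : OD s (d - (LinearMap.mulLeft ℚ k).comp e) where
  mul a b := by
    simp only [LinearMap.sub_apply, LinearMap.comp_apply, LinearMap.mulLeft_apply]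
    rw [hd.mul, he.mul, mul_add, sub_mul, mul_sub, ← mul_assoc, ← mul_assoc,
      hs.even_comm k (s a) hk, ← mul_assoc]
    abel
  sg a := by
    simp only [LinearMap.sub_apply, LinearMap.comp_apply, LinearMap.mulLeft_apply]
    rw [map_sub, map_mul, hd.sg, he.sg, hk]
    rw [mul_neg]
    abel

theorem ED.sub_smul (hs : Sg s) {d e : A →ₗ[ℚ] A} (hd : ED s d) (he : OD s e) {k : A}
    (hk : s k = -k) : ED s (d - (LinearMap.mulLeft ℚ k).comp e) where
  mul a b := by
    simp only [LinearMap.sub_apply, LinearMap.comp_apply, LinearMap.mulLeft_apply]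
    rw [hd.mul, he.mul, mul_add, sub_mul, mul_sub, ← mul_assoc, ← mul_assoc,
      hs.odd_mul hk (s a), hs.s_s, ← mul_assoc]
    abel
  sg a := by
    simp only [LinearMap.sub_apply, LinearMap.comp_apply, LinearMap.mulLeft_apply]
    rw [map_sub, map_mul, hd.sg, he.sg, hk, neg_mul_neg]

/-- odd element times an even superderivation. -/
theorem OD.add_smul_ED (hs : Sg s) {d e : A →ₗ[ℚ] A} (hd : OD s d) (he : ED s e) {k : A}
    (hk : s k = -k) : OD s (d + (LinearMap.mulLeft ℚ k).comp e) where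
  mul a b := by
    simp only [LinearMap.add_apply, LinearMap.comp_apply, LinearMap.mulLeft_apply]
    rw [hd.mul, he.mul, mul_add, add_mul, mul_add, ← mul_assoc, ← mul_assoc,
      hs.odd_mul hk a, ← mul_assoc]
    abel
  sg a := by
    simp only [LinearMap.add_apply, LinearMap.comp_apply, LinearMap.mulLeft_apply]
    rw [map_add, map_mul, hd.sg, he.sg, hk, neg_mul]
    abel

theorem ED.smul (hs : Sg s) {e : A →ₗ[ℚ] A} (he : ED s e) {k : A}
    (hk : s k = k) : ED s ((LinearMap.mulLeft ℚ k).comp e) where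
  mul a b := by
    simp only [LinearMap.comp_apply, LinearMap.mulLeft_apply]
    rw [he.mul, mul_add, ← mul_assoc, ← mul_assoc, hs.even_comm k a hk, ← mul_assoc]
  sg a := by
    simp only [LinearMap.comp_apply, LinearMap.mulLeft_apply]
    rw [map_mul, he.sg, hk]

end basic

section psi
variable {s : A →ₐ[ℚ] A} {d : A →ₗ[ℚ] A} {v : A}

/-- Elimination of an odd coordinate. -/
def psi (v : A) (d : A →ₗ[ℚ] A) : A →ₗ[ℚ] A :=
  LinearMap.id - (LinearMap.mulLeft ℚ v).comp d

theorem psi_apply (v : A) (d : A →ₗ[ℚ] A) (a : A) : psi v d a = a - v * d a := rfl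

theorem psi_of_zero {a : A} (h : d a = 0) : psi v d a = a := by
  rw [psi_apply, h, mul_zero, sub_zero]

theorem psi_mul (hs : Sg s) (hd : OD s d) (hv : s v = -v) (a b : A) :
    psi v d (a * b) = psi v d a * psi v d b := by
  simp only [psi_apply]
  rw [hd.mul, sub_mul, mul_sub, mul_sub, mul_add]
  have h1 : v * d a * (v * d b) = 0 := by
    rw [← mul_assoc, hs.odd_mul_mul hv, zero_mul]
  have h2 : a * (v * d b) = v * (s a * d b) := by
    rw [← mul_assoc, ← mul_assoc, hs.mul_odd hv a]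
  rw [h1, h2, mul_assoc]
  abel

theorem psi_one (hd : OD s d) : psi v d 1 = 1 := psi_of_zero hd.one

theorem psi_s (hd : OD s d) (hv : s v = -v) (a : A) :
    s (psi v d a) = psi v d (s a) := by
  simp only [psi_apply]
  rw [map_sub, map_mul, hv, hd.sg, neg_mul_neg]

theorem d_psi (hd : OD s d) (hdd : ∀ a, d (d a) = 0) (hdv : d v = 1) (a : A) :
    d (psi v d a) = 0 := by
  simp only [psi_apply]
  rw [map_sub, hd.mul, hdv, one_mul, hdd, mul_zero, add_zero, sub_self]

theorem psi_psi (hd : OD s d) (hdd : ∀ a, d (d a) = 0) (hdv : d v = 1) (a : A) :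
    psi v d (psi v d a) = psi v d a := psi_of_zero (d_psi hd hdd hdv a)

end psi

section elim
variable {s : A →ₐ[ℚ] A} {d : A →ₗ[ℚ] A} {u wi : A}

/-- The data of an elimination: `u` odd, `d u` a unit with inverse `wi`. -/
structure El (s : A →ₐ[ℚ] A) (d : A →ₗ[ℚ] A) (u wi : A) : Prop where
  sg : Sg s
  od : OD s d
  dd : ∀ a, d (d a) = 0
  su : s u = -u
  uw : d u * wi = 1

theorem El.sw (h : El s d u wi) : s (d u) = d u := by
  rw [h.od.sg, h.su, map_neg, neg_neg]

theorem El.swi (h : El s d u wi) : s wi = wi := h.sg.inv_even h.sw h.uw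

theorem El.wu (h : El s d u wi) : wi * d u = 1 := h.sg.inv_comm h.sw h.uw

theorem El.dwi (h : El s d u wi) : d wi = 0 := by
  rw [h.od.inv h.sg h.sw h.uw, h.dd, mul_zero, zero_mul, neg_zero]

theorem El.sv (h : El s d u wi) : s (u * wi) = -(u * wi) := by
  rw [map_mul, h.su, h.swi, neg_mul]

theorem El.dv (h : El s d u wi) : d (u * wi) = 1 := by
  rw [h.od.mul, h.dwi, mul_zero, add_zero, h.uw]

theorem El.psi_u (h : El s d u wi) : psi (u * wi) d u = 0 := by
  rw [psi_apply, mul_assoc, h.wu, mul_one, sub_self]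

theorem El.mul (h : El s d u wi) (a b : A) :
    psi (u * wi) d (a * b) = psi (u * wi) d a * psi (u * wi) d b :=
  psi_mul h.sg h.od h.sv a b

theorem El.psi_uc (h : El s d u wi) (c : A) : psi (u * wi) d (u * c) = 0 := by
  rw [h.mul, h.psi_u, zero_mul]

theorem El.sub_psi (h : El s d u wi) (a : A) :
    a - psi (u * wi) d a = u * (wi * d a) := by
  rw [psi_apply, sub_sub_cancel, mul_assoc]

theorem El.eq_of_psi (h : El s d u wi) {a : A} (ha : psi (u * wi) d a = 0) :
    a = u * (wi * d a) := by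
  rw [← h.sub_psi, ha, sub_zero]

/-- `psi O psi = psi O` for an odd superderivation which kills `u`. -/
theorem El.psi_OD (h : El s d u wi) {O : A →ₗ[ℚ] A} (hO : OD s O) (hu : O u = 0) (a : A) :
    psi (u * wi) d (O (psi (u * wi) d a)) = psi (u * wi) d (O a) := by
  have h1 : psi (u * wi) d a = a - u * (wi * d a) := by
    rw [← h.sub_psi, sub_sub_cancel]
  conv_lhs => rw [h1]
  rw [map_sub, hO.mul, hu, zero_mul, zero_add, h.su, map_sub, neg_mul, map_neg, h.psi_uc,
    neg_zero, sub_zero]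

theorem El.psi_ED (h : El s d u wi) {O : A →ₗ[ℚ] A} (hO : ED s O) (hu : O u = 0) (a : A) :
    psi (u * wi) d (O (psi (u * wi) d a)) = psi (u * wi) d (O a) := by
  have h1 : psi (u * wi) d a = a - u * (wi * d a) := by
    rw [← h.sub_psi, sub_sub_cancel]
  conv_lhs => rw [h1]
  rw [map_sub, hO.mul, hu, zero_mul, zero_add, map_sub, h.psi_uc, sub_zero]

/-- Back-substitution: from `psi (Δ η) = 1` to `Δ (η (1 - u κ)) = 1`. -/
theorem El.back (h : El s d u wi) {O : A →ₗ[ℚ] A} (hO : OD s O) (hOO : ∀ a, O (O a) = 0)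
    (hu : O u = 0) {e : A} (he : psi (u * wi) d (O e) = 1) :
    O (e * (1 - u * (wi * d (O e)))) = 1 := by
  have h1 : O e = 1 + u * (wi * d (O e)) := by
    have := h.sub_psi (O e)
    rw [he] at this
    rw [← this]; abel
  set c := wi * d (O e) with hc
  have h2 : O (u * c) = 0 := by
    have h3 := hOO e
    rw [h1, map_add, hO.one, zero_add] at h3
    exact h3
  have h4 : (u * c) * (u * c) = 0 := by
    rw [← mul_assoc, h.sg.odd_mul_mul h.su, zero_mul]
  rw [hO.mul, map_sub, hO.one, h2, sub_zero, mul_zero, add_zero, h1, mul_sub, mul_one, add_mul,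
    one_mul, h4, add_zero, add_sub_cancel_right]

end elim

section brackets
variable {s : A →ₐ[ℚ] A}

/-- The odd-odd bracket of `r_i - κ_i r_y`. -/
theorem bracket_rr (hs : Sg s) (Λ : Submodule ℚ A) {ri rj ry E : A →ₗ[ℚ] A}
    (hi : OD s ri) (hj : OD s rj) (hy : OD s ry)
    (hiΛ : ∀ a ∈ Λ, ri a ∈ Λ) (hjΛ : ∀ a ∈ Λ, rj a ∈ Λ) (hyΛ : ∀ a ∈ Λ, ry a ∈ Λ)
    {gij giy gyj gyy : A}
    (hgij : ∀ a ∈ Λ, ri (rj a) + rj (ri a) = gij * E a)
    (hgiy : ∀ a ∈ Λ, ri (ry a) + ry (ri a) = giy * E a)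
    (hgyj : ∀ a ∈ Λ, ry (rj a) + rj (ry a) = gyj * E a)
    (hgyy : ∀ a ∈ Λ, ry (ry a) + ry (ry a) = gyy * E a)
    {ki kj : A} (hki : s ki = ki) (hkj : s kj = kj) {a : A} (ha : a ∈ Λ) :
    (ri (rj a - kj * ry a) - ki * ry (rj a - kj * ry a)) +
      (rj (ri a - ki * ry a) - kj * ry (ri a - ki * ry a)) =
    (gij - kj * giy - ki * gyj + ki * kj * gyy) * E a -
      ((ri kj - ki * ry kj) + (rj ki - kj * ry ki)) * ry a := by
  have e1 := hgij a ha
  have e2 := hgiy a ha
  have e3 := hgyj a ha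
  have e4 := hgyy a ha
  rw [map_sub, map_sub, map_sub, map_sub, hi.mul, hj.mul, hy.mul, hy.mul, hki, hkj]
  have c1 : kj * (ki * ry (ry a)) = ki * kj * ry (ry a) := by
    rw [← mul_assoc, hs.even_comm kj ki hkj]
  have r1 : (gij - kj * giy - ki * gyj + ki * kj * gyy) * E a =
      gij * E a - kj * (giy * E a) - ki * (gyj * E a) + ki * kj * (gyy * E a) := by
    simp only [add_mul, sub_mul, mul_assoc]
  rw [r1, ← e1, ← e2, ← e3, ← e4]
  simp only [mul_add, mul_sub, add_mul, sub_mul, mul_assoc] at c1 ⊢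
  rw [c1]
  abel

/-- The odd-even bracket of `r_i - κ_i r_y` and `E - α r_y`. -/
theorem bracket_rE (hs : Sg s) (Λ : Submodule ℚ A) {ri ry E : A →ₗ[ℚ] A}
    (hi : OD s ri) (hy : OD s ry) (hE : ED s E)
    {giy gyy hhi hhy : A}
    (hgiy : ∀ a ∈ Λ, ri (ry a) + ry (ri a) = giy * E a)
    (hgyy : ∀ a ∈ Λ, ry (ry a) + ry (ry a) = gyy * E a)
    (hhi' : ∀ a ∈ Λ, ri (E a) - E (ri a) = hhi * E a)
    (hhy' : ∀ a ∈ Λ, ry (E a) - E (ry a) = hhy * E a)
    {ki al : A} (hki : s ki = ki) (hal : s al = -al) {a : A} (ha : a ∈ Λ) :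
    (ri (E a - al * ry a) - ki * ry (E a - al * ry a)) -
      (E (ri a - ki * ry a) - al * ry (ri a - ki * ry a)) =
    (hhi - ki * hhy + al * giy - al * ki * gyy) * E a -
      ((ri al - ki * ry al) - (E ki - al * ry ki)) * ry a := by
  have e2 := hgiy a ha
  have e4 := hgyy a ha
  have e5 := hhi' a ha
  have e6 := hhy' a ha
  rw [map_sub, map_sub, map_sub, map_sub, hi.mul, hE.mul, hy.mul, hy.mul, hki, hal]
  have c1 : ki * (al * ry (ry a)) = al * ki * ry (ry a) := by
    rw [← mul_assoc, hs.even_comm ki al hki]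
  have r1 : (hhi - ki * hhy + al * giy - al * ki * gyy) * E a =
      hhi * E a - ki * (hhy * E a) + al * (giy * E a) - al * ki * (gyy * E a) := by
    simp only [add_mul, sub_mul, mul_assoc]
  rw [r1, ← e2, ← e4, ← e5, ← e6]
  simp only [mul_add, mul_sub, add_mul, sub_mul, mul_assoc, neg_mul, mul_neg] at c1 ⊢
  rw [c1]
  abel

end brackets

end AnWL.Nd
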