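import Pool.Agent.Helper57.G2.Fil

/-!
# Project G2 (MP_5f0082_gt): the KEY LEMMA on words

`x ∈ Λ` with `E x ∈ F 0`: a word `r_{t_1} .. r_{t_n} x` with `n ≥ 2` changes by a sign and an element of
`F (n - 2)` under a permutation of its letters, and lies in `F (n - 2)` if a letter occurs twice; `E` of it is in `F n`.
-/

set_option autoImplicit false

namespace AnWL.Nd

variable {A : Type} [Ring A] [Algebra ℚ A] {M Γ : Type} [AddCommGroup Γ]

/-- The words in the `r t`. -/
def wd (r : M → A →ₗ[ℚ] A) (x : A) : List M → A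
  | [] => x
  | t :: l => r t (wd r x l)

section
variable {s : A →ₐ[ℚ] A} {Λ : Subalgebra ℚ A} {Del E : A →ₗ[ℚ] A} {L : Set M}
  {r : M → A →ₗ[ℚ] A} {g : M → M → A} {h : M → A}
  {one xx : Γ} {xd : M → Γ} {H : Γ → Submodule ℚ A} {Z : Subalgebra ℚ A}
  {F : ℕ → Γ → Submodule ℚ A} {N : ℕ} {x : A} {e : Γ}

theorem wd_mem (B : Br s Λ Del E L r g h) (hx : x ∈ Λ) {l : List M} (hl : ∀ t ∈ l, t ∈ L) :
    wd r x l ∈ Λ := by
  induction l with
  | nil => exact hx
  | cons t l ih =>
    exact B.r_Λ t (hl t List.mem_cons_self) _ (ih fun t' ht' => hl t' (List.mem_cons_of_mem _ ht'))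

theorem wd_s (B : Br s Λ Del E L r g h) (hx : s x = x) {l : List M} (hl : ∀ t ∈ l, t ∈ L) :
    s (wd r x l) = (-1 : ℚ) ^ l.length • wd r x l := by
  induction l with
  | nil => rw [List.length_nil, pow_zero, one_smul]; exact hx
  | cons t l ih =>
    have h1 := ih fun t' ht' => hl t' (List.mem_cons_of_mem _ ht')
    show s (r t (wd r x l)) = _
    rw [(B.r_od t (hl t List.mem_cons_self)).sg, h1, map_smul, List.length_cons, pow_succ,
      mul_neg_one, neg_smul]
    rfl

theorem wd_H (hr : ∀ t ∈ L, ∀ (γ : Γ) (a : A), a ∈ H γ → r t a ∈ H (γ - xd t)) (hx : x ∈ H e)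
    {l : List M} (hl : ∀ t ∈ l, t ∈ L) : wd r x l ∈ H (e - (l.map xd).sum) := by
  induction l with
  | nil => simpa [wd] using hx
  | cons t l ih =>
    have h1 := hr t (hl t List.mem_cons_self) _ _
      (ih fun t' ht' => hl t' (List.mem_cons_of_mem _ ht'))
    have e1 : e - (l.map xd).sum - xd t = e - ((t :: l).map xd).sum := by
      rw [List.map_cons, List.sum_cons]; abel
    rwa [e1] at h1

theorem wd_D (B : Br s Λ Del E L r g h) (hx : x ∈ Λ) (hDx : ∀ t ∈ L, r t (Del x) = 0)
    {l : List M} (hl : ∀ t ∈ l, t ∈ L) (hne : l ≠ []) : Del (wd r x l) = 0 := by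
  induction l with
  | nil => exact absurd rfl hne
  | cons t l ih =>
    have hl' : ∀ t' ∈ l, t' ∈ L := fun t' ht' => hl t' (List.mem_cons_of_mem _ ht')
    have ht := hl t List.mem_cons_self
    show Del (r t (wd r x l)) = 0
    rw [B.Dr t ht _ (wd_mem B hx hl')]
    by_cases hn : l = []
    · subst hn
      show -r t (Del x) = 0
      rw [hDx t ht, neg_zero]
    · rw [ih hl' hn, map_zero, neg_zero]

/-- `E` of a word of length `n` is in `F n`. -/
theorem wd_E (B : Br s Λ Del E L r g h) (hF : Fl s Del E L r one xx xd H Z F N)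
    (hh1 : ∀ t ∈ L, h t ∈ F 1 (-xd t)) (hx : x ∈ Λ) (hEx : E x ∈ F 0 (e - xx))
    {l : List M} (hl : ∀ t ∈ l, t ∈ L) :
    E (wd r x l) ∈ F l.length (e - xx - (l.map xd).sum) := by
  induction l with
  | nil => simpa [wd] using hEx
  | cons t l ih =>
    have hl' : ∀ t' ∈ l, t' ∈ L := fun t' ht' => hl t' (List.mem_cons_of_mem _ ht')
    have ht := hl t List.mem_cons_self
    have h1 := ih hl'
    have h2 := B.rE t ht _ (wd_mem B hx hl')
    have h3 : E (r t (wd r x l)) = r t (E (wd r x l)) - h t * E (wd r x l) := by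
      rw [← h2]; abel
    show E (r t (wd r x l)) ∈ _
    rw [h3]
    have e1 : e - xx - (l.map xd).sum - xd t = e - xx - ((t :: l).map xd).sum := by
      rw [List.map_cons, List.sum_cons]; abel
    refine sub_mem ?_ ?_
    · have := hF.r_mem t ht h1
      rwa [e1] at this
    · have := hF.mul (hh1 t ht) h1
      have e2 : -xd t + (e - xx - (l.map xd).sum) = e - xx - ((t :: l).map xd).sum := by
        rw [List.map_cons, List.sum_cons]; abel
      rw [e2, add_comm 1 l.length] at this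
      exact this

/-- Application of a word to an element of the filtration. -/
theorem wd_F (hF : Fl s Del E L r one xx xd H Z F N) {k : ℕ} {γ : Γ} {a : A} (ha : a ∈ F k γ)
    {l : List M} (hl : ∀ t ∈ l, t ∈ L) : wd r a l ∈ F (k + l.length) (γ - (l.map xd).sum) := by
  induction l with
  | nil => simpa [wd] using ha
  | cons t l ih =>
    have h1 := hF.r_mem t (hl t List.mem_cons_self)
      (ih fun t' ht' => hl t' (List.mem_cons_of_mem _ ht'))
    have e1 : γ - (l.map xd).sum - xd t = γ - ((t :: l).map xd).sum := by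
      rw [List.map_cons, List.sum_cons]; abel
    rw [e1] at h1
    exact h1

theorem wd_append (l₁ l₂ : List M) : wd r x (l₁ ++ l₂) = wd r (wd r x l₂) l₁ := by
  induction l₁ with
  | nil => rfl
  | cons t l ih => show r t (wd r x (l ++ l₂)) = r t _; rw [ih]

theorem wd_add (a b : A) (l : List M) : wd r (a + b) l = wd r a l + wd r b l := by
  induction l with
  | nil => rfl
  | cons t l ih => show r t _ = r t _ + r t _; rw [ih, map_add]

/-- Two adjacent letters. -/
theorem wd_two (B : Br s Λ Del E L r g h) (hF : Fl s Del E L r one xx xd H Z F N)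
    (hg0 : ∀ t ∈ L, ∀ t' ∈ L, g t t' ∈ F 0 (xx - xd t - xd t'))
    (hh1 : ∀ t ∈ L, h t ∈ F 1 (-xd t)) (hx : x ∈ Λ) (hEx : E x ∈ F 0 (e - xx))
    {a b : M} {l : List M} (ha : a ∈ L) (hb : b ∈ L) (hl : ∀ t ∈ l, t ∈ L) :
    wd r x (a :: b :: l) + wd r x (b :: a :: l) ∈
      F l.length (e - ((a :: b :: l).map xd).sum) := by
  show r a (r b (wd r x l)) + r b (r a (wd r x l)) ∈ _
  rw [B.rr a ha b hb _ (wd_mem B hx hl)]
  have h1 := hF.mul (hg0 a ha b hb) (wd_E B hF hh1 hx hEx hl)
  have e1 : xx - xd a - xd b + (e - xx - (l.map xd).sum) =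
      e - ((a :: b :: l).map xd).sum := by
    rw [List.map_cons, List.map_cons, List.sum_cons, List.sum_cons]; abel
  rw [e1, zero_add] at h1
  exact h1

theorem wd_same (B : Br s Λ Del E L r g h) (hF : Fl s Del E L r one xx xd H Z F N)
    (hg0 : ∀ t ∈ L, ∀ t' ∈ L, g t t' ∈ F 0 (xx - xd t - xd t'))
    (hh1 : ∀ t ∈ L, h t ∈ F 1 (-xd t)) (hx : x ∈ Λ) (hEx : E x ∈ F 0 (e - xx))
    {a : M} {l : List M} (ha : a ∈ L) (hl : ∀ t ∈ l, t ∈ L) :
    wd r x (a :: a :: l) ∈ F l.length (e - ((a :: a :: l).map xd).sum) := by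
  have h1 := wd_two B hF hg0 hh1 hx hEx ha ha hl
  rw [← two_smul ℚ] at h1
  have h2 := Submodule.smul_mem _ ((2 : ℚ)⁻¹) h1
  rwa [smul_smul, inv_mul_cancel₀ (by norm_num), one_smul] at h2

/-- KEY LEMMA, permutations of the letters. -/
theorem wd_perm (B : Br s Λ Del E L r g h) (hF : Fl s Del E L r one xx xd H Z F N)
    (hg0 : ∀ t ∈ L, ∀ t' ∈ L, g t t' ∈ F 0 (xx - xd t - xd t'))
    (hh1 : ∀ t ∈ L, h t ∈ F 1 (-xd t)) (hx : x ∈ Λ) (hEx : E x ∈ F 0 (e - xx))
    {l l' : List M} (hp : l.Perm l') (hl : ∀ t ∈ l, t ∈ L) :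
    ∃ c : ℚ, (c = 1 ∨ c = -1) ∧
      wd r x l - c • wd r x l' ∈ F (l.length - 2) (e - (l.map xd).sum) := by
  induction hp with
  | nil => exact ⟨1, Or.inl rfl, by rw [one_smul, sub_self]; exact zero_mem _⟩
  | @cons t l l' hp ih =>
    have hl' : ∀ t' ∈ l, t' ∈ L := fun t' ht' => hl t' (List.mem_cons_of_mem _ ht')
    obtain ⟨c, hc, h1⟩ := ih hl'
    by_cases hn : 2 ≤ l.length
    · refine ⟨c, hc, ?_⟩
      have h2 := hF.r_mem t (hl t List.mem_cons_self) h1
      rw [map_sub, map_smul] at h2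
      have e1 : e - (l.map xd).sum - xd t = e - ((t :: l).map xd).sum := by
        rw [List.map_cons, List.sum_cons]; abel
      have e2 : l.length - 2 + 1 = (t :: l).length - 2 := by
        rw [List.length_cons]; omega
      rw [e1, e2] at h2
      exact h2
    · have he : l = l' := by
        rcases l with _ | ⟨a, _ | ⟨b, l⟩⟩
        · exact (List.nil_perm.1 hp).symm
        · exact List.singleton_perm.1 hp
        · simp at hn
      subst he
      exact ⟨1, Or.inl rfl, by rw [one_smul, sub_self]; exact zero_mem _⟩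
  | swap a b l =>
    refine ⟨-1, Or.inr rfl, ?_⟩
    have h1 := wd_two B hF hg0 hh1 hx hEx (a := b) (b := a) (l := l) (hl b (by simp))
      (hl a (by simp)) (fun t ht => hl t (by simp [ht]))
    rw [neg_one_smul, sub_neg_eq_add]
    exact h1
  | @trans l l' l'' hp hp' ih ih' =>
    obtain ⟨c, hc, h1⟩ := ih hl
    obtain ⟨c', hc', h2⟩ := ih' (fun t ht => hl t (hp.mem_iff.2 ht))
    refine ⟨c * c', ?_, ?_⟩
    · rcases hc with rfl | rfl <;> rcases hc' with rfl | rfl <;> simp
    · have e1 : (l'.map xd).sum = (l.map xd).sum := (hp.map xd).sum_eq.symm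
      rw [e1, ← hp.length_eq] at h2
      have h3 := add_mem h1 (Submodule.smul_mem _ c h2)
      rw [smul_sub, smul_smul, sub_add_sub_cancel] at h3
      exact h3

/-- KEY LEMMA, repeated letters. -/
theorem wd_dup [DecidableEq M] (B : Br s Λ Del E L r g h)
    (hF : Fl s Del E L r one xx xd H Z F N)
    (hg0 : ∀ t ∈ L, ∀ t' ∈ L, g t t' ∈ F 0 (xx - xd t - xd t'))
    (hh1 : ∀ t ∈ L, h t ∈ F 1 (-xd t)) (hx : x ∈ Λ) (hEx : E x ∈ F 0 (e - xx))
    {l : List M} (hl : ∀ t ∈ l, t ∈ L) (hd : ¬ l.Nodup) :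
    wd r x l ∈ F (l.length - 2) (e - (l.map xd).sum) := by
  obtain ⟨a, ha⟩ : ∃ a, List.Duplicate a l := List.exists_duplicate_iff_not_nodup.2 hd
  have ham : a ∈ l := ha.mem
  have h2 : a ∈ l.erase a := by
    have := List.duplicate_iff_two_le_count.1 ha
    rw [← List.count_pos_iff, List.count_erase_self]
    omega
  have hp : l.Perm (a :: a :: (l.erase a).erase a) :=
    (List.perm_cons_erase ham).trans ((List.perm_cons_erase h2).cons a)
  obtain ⟨c, _, h1⟩ := wd_perm B hF hg0 hh1 hx hEx hp hl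
  have hal : ∀ t ∈ (a :: a :: (l.erase a).erase a), t ∈ L := fun t ht => hl t (hp.mem_iff.2 ht)
  have h3 := wd_same B hF hg0 hh1 hx hEx (a := a) (l := (l.erase a).erase a)
    (hal a (by simp)) (fun t ht => hal t (by simp [ht]))
  have e1 : ((a :: a :: (l.erase a).erase a).map xd).sum = (l.map xd).sum :=
    (hp.map xd).sum_eq.symm
  have e2 : ((l.erase a).erase a).length = l.length - 2 := by
    have := hp.length_eq
    simp only [List.length_cons] at this
    omega
  rw [e1, e2] at h3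
  have h4 := add_mem h1 (Submodule.smul_mem _ c h3)
  rwa [sub_add_cancel] at h4

end

end AnWL.Nd
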