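import Pool.Agent.Helper57.G2.Key

/-!
# Project G2 (MP_5f0082_gt): the filtration of the child

`Fl.words`: adjunction of all the words `wd l x`, `|l| ≥ q = |Y|` (weight `|l| - q`), and of `V⁻¹`, `V = wd Y x`.
`Chd`: the data of a child (restriction to `{u = 0}`), `Chd.fl`: its filtration, the image under `psi`.
-/

set_option autoImplicit false

namespace AnWL.Nd

variable {A : Type} [Ring A] [Algebra ℚ A] {M Γ : Type} [AddCommGroup Γ]

section
variable {s : A →ₐ[ℚ] A} {Λ : Subalgebra ℚ A} {Del E : A →ₗ[ℚ] A} {L : Finset M}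
  {r : M → A →ₗ[ℚ] A} {g : M → M → A} {h : M → A}
  {one xx : Γ} {xd : M → Γ} {H : Γ → Submodule ℚ A} {Z : Subalgebra ℚ A}
  {F : ℕ → Γ → Submodule ℚ A} {N : ℕ} {x : A} {e : Γ}

/-- The canonical word of a set. -/
noncomputable def wS (r : M → A →ₗ[ℚ] A) (x : A) (S : Finset M) : A := wd r x S.toList

/-- The degree of a word. -/
noncomputable def dS (xd : M → Γ) (e : Γ) (S : Finset M) : Γ := e - (S.toList.map xd).sum

theorem perm_toFinset [DecidableEq M] {l : List M} (hl : l.Nodup) : l.Perm l.toFinset.toList := by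
  refine List.perm_of_nodup_nodup_toFinset_eq hl (Finset.nodup_toList _) ?_
  rw [Finset.toList_toFinset]

/-- Adjunction of the words of length `≥ k`, `k ≥ q`. -/
theorem Fl.words_aux [DecidableEq M] (B : Br s Λ Del E (L : Set M) r g h)
    (hF : Fl s Del E (L : Set M) r one xx xd H Z F N)
    (hg0 : ∀ t ∈ L, ∀ t' ∈ L, g t t' ∈ F 0 (xx - xd t - xd t'))
    (hh1 : ∀ t ∈ L, h t ∈ F 1 (-xd t))
    (mul_H : ∀ {g h : Γ} {a b : A}, a ∈ H g → b ∈ H h → a * b ∈ H (g + h))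
    (s_H : ∀ {g : Γ} {a : A}, a ∈ H g → s a ∈ H g)
    (r_H : ∀ t ∈ L, ∀ (γ : Γ) (a : A), a ∈ H γ → r t a ∈ H (γ - xd t))
    (s_Z : ∀ a ∈ Z, s a ∈ Z)
    (hx : x ∈ Λ) (sx : s x = x) (xH : x ∈ H e) (hEx : E x ∈ F 0 (e - xx))
    (hDx : ∀ t ∈ L, r t (Del x) = 0)
    (hZ : ∀ l : List M, l.Nodup → (∀ t ∈ l, t ∈ L) → l ≠ [] → wd r x l ∈ Z)
    {q : ℕ} (hq : 2 ≤ q)
    (hex : ∀ S ⊆ L, q < S.card → Even S.card →
      ∃ (c : ℕ), ∃ z ∈ Z, z ∈ H (c • dS xd e S - one) ∧ Del z = wS r x S ^ c)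
    (j : ℕ) (hj : q ≤ L.card + 1 - j) :
    ∃ (F' : ℕ → Γ → Submodule ℚ A) (N' : ℕ), Fl s Del E (L : Set M) r one xx xd H Z F' N' ∧
      (∀ k γ a, a ∈ F k γ → a ∈ F' k γ) ∧
      ∀ S ⊆ L, L.card + 1 - j ≤ S.card → wS r x S ∈ F' (S.card - q) (dS xd e S) := by
  induction j with
  | zero =>
    refine ⟨F, N, hF, fun _ _ _ ha => ha, fun S hS hc => ?_⟩
    have := Finset.card_le_card hS
    omega
  | succ j ih =>
    obtain ⟨F₁, N₁, h1, h2, h3⟩ := ih (by omega)
    by_cases hjL : L.card + 1 - j = L.card + 1 - (j + 1)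
    · rw [hjL] at h3
      exact ⟨F₁, N₁, h1, h2, h3⟩
    set k := L.card + 1 - (j + 1) with hk
    have hk1 : L.card + 1 - j = k + 1 := by omega
    rw [hk1] at h3
    have key : ∀ T : Finset (Finset M), (∀ S ∈ T, S ⊆ L ∧ S.card = k) →
        ∃ (F' : ℕ → Γ → Submodule ℚ A) (N' : ℕ),
          Fl s Del E (L : Set M) r one xx xd H Z F' N' ∧
          (∀ k γ a, a ∈ F₁ k γ → a ∈ F' k γ) ∧
          ∀ S ∈ T, wS r x S ∈ F' (k - q) (dS xd e S) := by
      intro T
      induction T using Finset.induction_on with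
      | empty =>
        intro _
        exact ⟨F₁, N₁, h1, fun _ _ _ ha => ha, fun S hS => absurd hS (Finset.notMem_empty S)⟩
      | insert S T hST ihT =>
        intro hT
        obtain ⟨F₂, N₂, g1, g2, g3⟩ := ihT fun S' hS' => hT S' (Finset.mem_insert_of_mem hS')
        obtain ⟨hSL, hSk⟩ := hT S (Finset.mem_insert_self S T)
        have hlet : ∀ t ∈ S.toList, t ∈ L := fun t ht => hSL (Finset.mem_toList.1 ht)
        have hlen : S.toList.length = k := by rw [Finset.length_toList, hSk]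
        have hne : S.toList ≠ [] := by
          intro h0
          rw [h0] at hlen
          simp at hlen
          omega
        have hEw : E (wS r x S) ∈ F₂ k (e - xx - (S.toList.map xd).sum) := by
          have := wd_E B hF hh1 hx hEx hlet
          rw [hlen] at this
          exact g2 _ _ _ (h2 _ _ _ this)
        have hrw : ∀ t ∈ L, r t (wS r x S) ∈ F₂ (k - q + 1) (dS xd e S - xd t) := by
          intro t ht
          have hl' : ∀ t' ∈ t :: S.toList, t' ∈ L := by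
            intro t' ht'
            rcases List.mem_cons.1 ht' with rfl | ht'
            · exact ht
            · exact hlet t' ht'
          have hdeg : e - ((t :: S.toList).map xd).sum = dS xd e S - xd t := by
            rw [List.map_cons, List.sum_cons, dS]; abel
          have hlen' : (t :: S.toList).length - 2 = k - 1 := by
            rw [List.length_cons, hlen]; omega
          by_cases htS : t ∈ S
          · have := wd_dup B hF hg0 hh1 hx hEx hl' (by
              rw [List.nodup_cons]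
              exact fun hh => hh.1 (Finset.mem_toList.2 htS))
            rw [hdeg, hlen'] at this
            exact g1.anti' (by omega) (g2 _ _ _ (h2 _ _ _ this))
          · have hp : (t :: S.toList).Perm (insert t S).toList := (Finset.toList_insert htS).symm
            obtain ⟨c, _, h4⟩ := wd_perm B hF hg0 hh1 hx hEx hp hl'
            rw [hdeg, hlen'] at h4
            have h5 := h3 (insert t S) (Finset.insert_subset ht hSL) (by
              rw [Finset.card_insert_of_notMem htS, hSk])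
            have e5 : dS xd e (insert t S) = dS xd e S - xd t := by
              rw [← hdeg, dS]
              congr 1
              exact (hp.map xd).sum_eq.symm
            rw [Finset.card_insert_of_notMem htS, hSk, e5] at h5
            have h6 : wd r x (t :: S.toList) =
                (wd r x (t :: S.toList) - c • wd r x (insert t S).toList) +
                  c • wS r x (insert t S) := by
              rw [wS, sub_add_cancel]
            show wd r x (t :: S.toList) ∈ _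
            rw [h6]
            refine add_mem (g1.anti' (by omega) (g2 _ _ _ (h2 _ _ _ h4))) ?_
            refine Submodule.smul_mem _ c (g1.anti' (show k - q + 1 ≤ k + 1 - q by omega)
              (g2 _ _ _ h5))
        have hsw : s (wS r x S) = wS r x S ∨ s (wS r x S) = -wS r x S := by
          have h7 := wd_s B sx hlet
          rcases neg_one_pow_eq_or ℚ S.toList.length with h8 | h8
          · left; rw [wS, h7, h8, one_smul]
          · right; rw [wS, h7, h8, neg_one_smul]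
        have hwH : wS r x S ∈ H (dS xd e S) := wd_H r_H xH hlet
        have hcc : ∃ c : ℕ, k - q = 0 ∨
            ∃ z ∈ Z, z ∈ H (c • dS xd e S - one) ∧ Del z = wS r x S ^ c := by
          by_cases hkq : k - q = 0
          · exact ⟨0, Or.inl hkq⟩
          · rcases Nat.even_or_odd S.card with hev | hodd
            · obtain ⟨c, z, z1, z2, z3⟩ := hex S hSL (by omega) hev
              exact ⟨c, Or.inr ⟨z, z1, z2, z3⟩⟩
            · refine ⟨2, Or.inr ⟨0, zero_mem _, zero_mem _, ?_⟩⟩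
              have h8 : s (wS r x S) = -wS r x S := by
                have h7 := wd_s B sx hlet
                rw [Finset.length_toList, hodd.neg_one_pow, neg_one_smul] at h7
                exact h7
              rw [map_zero, pow_two, B.sg.odd_sq h8]
        obtain ⟨c, hc⟩ := hcc
        have g4 := g1.adj B.sg B.Del_od B.E_ed B.r_od mul_H s_H s_Z (ω := dS xd e S)
          (κ := k - q) (c := c) hsw (hZ _ (Finset.nodup_toList _) hlet hne) hwH (wd_D B hx hDx hlet hne)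
          (fun t ht => adj_base (hrw t ht))
          (by
            have e6 : e - xx - (S.toList.map xd).sum = dS xd e S - xx := by rw [dS]; abel
            rw [e6] at hEw
            exact adj_base (g1.anti' (by omega) hEw)) hc
        refine ⟨Nd.adj F₂ (wS r x S) (dS xd e S) (k - q), N₂ + c * (k - q), g4,
          fun _ _ _ ha => adj_base (g2 _ _ _ ha), fun S' hS' => ?_⟩
        rcases Finset.mem_insert.1 hS' with rfl | hS'
        · exact adj_self g1
        · exact adj_base (g3 S' hS')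
    obtain ⟨F₂, N₂, g1, g2, g3⟩ := key (L.powerset.filter fun S => S.card = k) (by
      intro S hS
      rw [Finset.mem_filter, Finset.mem_powerset] at hS
      exact hS)
    refine ⟨F₂, N₂, g1, fun _ _ _ ha => g2 _ _ _ (h2 _ _ _ ha), fun S hS hc => ?_⟩
    by_cases hSk : S.card = k
    · rw [hSk]
      exact g3 S (Finset.mem_filter.2 ⟨Finset.mem_powerset.2 hS, hSk⟩)
    · exact g2 _ _ _ (h3 S hS (by omega))

/-- Adjunction of all the words of length `≥ q`, and of the inverse of one even word of length `q`. -/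
theorem Fl.words [DecidableEq M] (B : Br s Λ Del E (L : Set M) r g h)
    (hF : Fl s Del E (L : Set M) r one xx xd H Z F N)
    (hg0 : ∀ t ∈ L, ∀ t' ∈ L, g t t' ∈ F 0 (xx - xd t - xd t'))
    (hh1 : ∀ t ∈ L, h t ∈ F 1 (-xd t))
    (mul_H : ∀ {g h : Γ} {a b : A}, a ∈ H g → b ∈ H h → a * b ∈ H (g + h))
    (s_H : ∀ {g : Γ} {a : A}, a ∈ H g → s a ∈ H g)
    (r_H : ∀ t ∈ L, ∀ (γ : Γ) (a : A), a ∈ H γ → r t a ∈ H (γ - xd t))
    (s_Z : ∀ a ∈ Z, s a ∈ Z)
    (hx : x ∈ Λ) (sx : s x = x) (xH : x ∈ H e) (hEx : E x ∈ F 0 (e - xx))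
    (hDx : ∀ t ∈ L, r t (Del x) = 0)
    (hZ : ∀ l : List M, l.Nodup → (∀ t ∈ l, t ∈ L) → l ≠ [] → wd r x l ∈ Z)
    {Y : List M} (hY : Y.Nodup) (hYL : ∀ t ∈ Y, t ∈ L) (hq : 2 ≤ Y.length)
    (hYe : Even Y.length)
    (hex : ∀ S ⊆ L, Y.length < S.card → Even S.card →
      ∃ (c : ℕ), ∃ z ∈ Z, z ∈ H (c • dS xd e S - one) ∧ Del z = wS r x S ^ c)
    {Z' : Subalgebra ℚ A} (hZZ' : Z ≤ Z') (s_Z' : ∀ a ∈ Z', s a ∈ Z')
    {Vi : A} (hVi : wd r x Y * Vi = 1) (ViZ : Vi ∈ Z') (ViH : Vi ∈ H (-(e - (Y.map xd).sum))) :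
    ∃ (F' : ℕ → Γ → Submodule ℚ A) (N' : ℕ), Fl s Del E (L : Set M) r one xx xd H Z' F' N' ∧
      (∀ k γ a, a ∈ F k γ → a ∈ F' k γ) ∧
      (∀ l : List M, l.Nodup → (∀ t ∈ l, t ∈ L) → Y.length ≤ l.length →
        wd r x l ∈ F' (l.length - Y.length) (e - (l.map xd).sum)) ∧
      Vi ∈ F' 0 (-(e - (Y.map xd).sum)) := by
  have hqL : Y.length ≤ L.card := by
    have h0 : Y.toFinset ⊆ L := fun t ht => hYL t (List.mem_toFinset.1 ht)
    have h1 := Finset.card_le_card h0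
    rwa [List.toFinset_card_of_nodup hY] at h1
  obtain ⟨F₁, N₁, f1, f2, f3⟩ := Fl.words_aux B hF hg0 hh1 mul_H s_H r_H s_Z hx sx xH hEx hDx hZ
    hq hex (L.card + 1 - Y.length) (by omega)
  have f3' : ∀ l : List M, l.Nodup → (∀ t ∈ l, t ∈ L) → Y.length ≤ l.length →
      wd r x l ∈ F₁ (l.length - Y.length) (e - (l.map xd).sum) := by
    intro l hl hlL hle
    have hp := perm_toFinset hl
    obtain ⟨c, _, h4⟩ := wd_perm B hF hg0 hh1 hx hEx hp hlL
    have hcard : l.toFinset.card = l.length := List.toFinset_card_of_nodup hl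
    have h5 := f3 l.toFinset (fun t ht => hlL t (List.mem_toFinset.1 ht)) (by omega)
    have e5 : dS xd e l.toFinset = e - (l.map xd).sum := by
      rw [dS]
      congr 1
      exact (hp.map xd).sum_eq.symm
    rw [e5, hcard] at h5
    have h6 : wd r x l = (wd r x l - c • wd r x l.toFinset.toList) + c • wS r x l.toFinset := by
      rw [wS, sub_add_cancel]
    rw [h6]
    exact add_mem (f1.anti' (by omega) (f2 _ _ _ h4)) (Submodule.smul_mem _ c h5)
  have hV0 : wd r x Y ∈ F₁ 0 (e - (Y.map xd).sum) := by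
    have := f3' Y hY hYL le_rfl
    rwa [Nat.sub_self] at this
  have sV : s (wd r x Y) = wd r x Y := by
    have := wd_s B sx hYL
    rwa [hYe.neg_one_pow, one_smul] at this
  have sVi : s Vi = Vi := B.sg.inv_even sV hVi
  have hne : Y ≠ [] := by
    intro h0
    rw [h0] at hq
    simp at hq
  have DV : Del (wd r x Y) = 0 := wd_D B hx hDx hYL hne
  have DVi : Del Vi = 0 := by
    rw [B.Del_od.inv B.sg sV hVi, DV, mul_zero, zero_mul, neg_zero]
  set ω := e - (Y.map xd).sum with hω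
  have f1' := f1.mono hZZ'
  have f4 := f1'.adj B.sg B.Del_od B.E_ed B.r_od mul_H s_H s_Z' (ω := -ω) (κ := 0) (c := 0)
    (w := Vi) (Or.inl sVi) ViZ ViH DVi
    (fun t ht => by
      have h1 : r t Vi = -(Vi ^ 2 * r t (wd r x Y)) := by
        rw [(B.r_od t ht).inv B.sg sV hVi, mul_assoc, ← B.sg.even_comm Vi _ sVi, ← mul_assoc, pow_two]
      rw [h1]
      refine neg_mem (adj_gen (f1'.r_mem t ht hV0) (by omega) ?_)
      rw [two_nsmul]; abel)
    (by
      have h1 : E Vi = -(Vi ^ 2 * E (wd r x Y)) := by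
        rw [B.E_ed.inv B.sg sV hVi, mul_assoc, ← B.sg.even_comm Vi _ sVi, ← mul_assoc, pow_two]
      rw [h1]
      refine neg_mem (adj_gen (f1'.E_mem hV0) (by omega) ?_)
      rw [two_nsmul]; abel)
    (Or.inl rfl)
  exact ⟨Nd.adj F₁ Vi (-ω) 0, N₁ + 0 * 0, f4, fun _ _ _ ha => adj_base (f2 _ _ _ ha),
    fun l hl hlL hle => adj_base (f3' l hl hlL hle), adj_self f1'⟩

end

/-- The data of a child: the restriction to `{u = 0}`. -/
structure Chd (s : A →ₐ[ℚ] A) (Λ : Subalgebra ℚ A) (Del E : A →ₗ[ℚ] A) (L : Set M)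
    (r : M → A →ₗ[ℚ] A) (g : M → M → A) (h : M → A) (y : M) (u Vi : A) (d : A →ₗ[ℚ] A) (wi : A)
    (Λ' : Subalgebra ℚ A) (Del' E' : A →ₗ[ℚ] A) (L' : Set M) (r' : M → A →ₗ[ℚ] A) : Prop where
  B : Br s Λ Del E L r g h
  U : Eu s Λ Del L r y u Vi
  hd : El s d u wi
  hwi : wi ∈ Λ
  hdΛ : ∀ a ∈ Λ, d a ∈ Λ
  hΛ' : ∀ a, a ∈ Λ' ↔ a ∈ Λ ∧ d a = 0
  hL' : L' ⊆ L
  hDel : OD s Del'
  hE : ED s E'
  hr : ∀ t ∈ L', OD s (r' t)
  eDel : ∀ b ∈ Λ', Del' b = psi (u * wi) d (Del b)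
  eE : ∀ b ∈ Λ', E' b = psi (u * wi) d (E1 E r y u Vi b)
  er : ∀ t ∈ L', ∀ b ∈ Λ', r' t b = psi (u * wi) d (Rt r y u Vi t b)

section child
variable {s : A →ₐ[ℚ] A} {Λ : Subalgebra ℚ A} {Del E : A →ₗ[ℚ] A} {L : Set M}
  {r : M → A →ₗ[ℚ] A} {g : M → M → A} {h : M → A} {y : M} {u Vi : A} {d : A →ₗ[ℚ] A} {wi : A}
  {Λ' : Subalgebra ℚ A} {Del' E' : A →ₗ[ℚ] A} {L' : Set M} {r' : M → A →ₗ[ℚ] A}

theorem Chd.br (C : Chd s Λ Del E L r g h y u Vi d wi Λ' Del' E' L' r') :
    Br s Λ' Del' E' L' r' (fun t t' => psi (u * wi) d (gg r g y u Vi t t'))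
      (fun t => psi (u * wi) d (hh E r g h y u Vi t)) :=
  C.B.child C.U C.hd C.hwi C.hdΛ C.hΛ' C.hL' C.hDel C.hE C.hr C.eDel C.eE C.er

theorem Chd.p_mem (C : Chd s Λ Del E L r g h y u Vi d wi Λ' Del' E' L' r') {a : A}
    (ha : a ∈ Λ) : psi (u * wi) d a ∈ Λ' :=
  Br.p_mem C.U C.hd C.hwi C.hdΛ C.hΛ' ha

theorem Chd.pDel (C : Chd s Λ Del E L r g h y u Vi d wi Λ' Del' E' L' r') {a : A}
    (ha : a ∈ Λ) : Del' (psi (u * wi) d a) = psi (u * wi) d (Del a) := by
  rw [C.eDel _ (C.p_mem ha), C.hd.psi_OD C.B.Del_od C.U.Du]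

theorem Chd.pE (C : Chd s Λ Del E L r g h y u Vi d wi Λ' Del' E' L' r') {a : A}
    (ha : a ∈ Λ) : E' (psi (u * wi) d a) = psi (u * wi) d (E1 E r y u Vi a) := by
  rw [C.eE _ (C.p_mem ha), C.hd.psi_ED (C.B.E1_ed C.U) (C.B.E1_u C.U)]

theorem Chd.pr (C : Chd s Λ Del E L r g h y u Vi d wi Λ' Del' E' L' r') {t : M} (ht : t ∈ L')
    {a : A} (ha : a ∈ Λ) :
    r' t (psi (u * wi) d a) = psi (u * wi) d (Rt r y u Vi t a) := by
  rw [C.er t ht _ (C.p_mem ha), C.hd.psi_OD (C.B.Rt_od C.U (C.hL' ht)) (C.B.Rt_u C.U t)]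

/-- Back-substitution: a primitive of `1` for the child gives one for the parent. -/
theorem Chd.back (C : Chd s Λ Del E L r g h y u Vi d wi Λ' Del' E' L' r')
    {η : A} (hη : η ∈ Λ') (h1 : Del' η = 1) (hDD : ∀ a, Del (Del a) = 0) :
    Del (η * (1 - u * (wi * d (Del η)))) = 1 := by
  rw [C.eDel η hη] at h1
  exact C.hd.back C.B.Del_od hDD C.U.Du h1

variable {one xx : Γ} {xd : M → Γ} {H : Γ → Submodule ℚ A} {Z Z' : Subalgebra ℚ A}
  {F : ℕ → Γ → Submodule ℚ A} {N : ℕ}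

/-- The filtration of the child. -/
theorem Chd.fl (C : Chd s Λ Del E L r g h y u Vi d wi Λ' Del' E' L' r')
    (hF : Fl s Del E L r one xx xd H Z F N) (hZΛ : Z ≤ Λ)
    (hpZ : ∀ a ∈ Z, psi (u * wi) d a ∈ Z')
    (hpH : ∀ (γ : Γ) (a : A), a ∈ H γ → psi (u * wi) d a ∈ H γ)
    (hka : ∀ t ∈ L, ka r u Vi t ∈ F 0 (xd y - xd t))
    (hal : al E u Vi ∈ F 0 (xd y - xx)) :
    Fl s Del' E' L' r' one xx xd H Z' (fun k γ => (F k γ).map (psi (u * wi) d)) N where
  anti := by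
    rintro k γ _ ⟨a, ha, rfl⟩
    exact ⟨a, hF.anti ha, rfl⟩
  one_mem := ⟨1, hF.one_mem, psi_one C.hd.od⟩
  mul := by
    rintro i j γ δ _ _ ⟨a, ha, rfl⟩ ⟨b, hb, rfl⟩
    exact ⟨a * b, hF.mul ha hb, C.hd.mul a b⟩
  s_mem := by
    rintro k γ _ ⟨a, ha, rfl⟩
    exact ⟨s a, hF.s_mem ha, (psi_s C.hd.od C.hd.sv a).symm⟩
  H_mem := by
    rintro k γ _ ⟨a, ha, rfl⟩
    exact hpH γ a (hF.H_mem ha)
  D_eq := by
    rintro k γ _ ⟨a, ha, rfl⟩
    rw [C.pDel (hZΛ (hF.Z_mem ha)), hF.D_eq ha, map_zero]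
  Z_mem := by
    rintro k γ _ ⟨a, ha, rfl⟩
    exact hpZ a (hF.Z_mem ha)
  r_mem := by
    rintro k γ _ t ht ⟨a, ha, rfl⟩
    rw [C.pr ht (hZΛ (hF.Z_mem ha))]
    refine ⟨_, ?_, rfl⟩
    rw [Rt_apply]
    refine sub_mem (hF.r_mem t (C.hL' ht) ha) ?_
    have h1 := hF.mul (hka t (C.hL' ht)) (hF.r_mem y C.U.y_mem ha)
    have e1 : xd y - xd t + (γ - xd y) = γ - xd t := by abel
    rw [e1, zero_add] at h1
    exact h1
  E_mem := by
    rintro k γ _ ⟨a, ha, rfl⟩
    rw [C.pE (hZΛ (hF.Z_mem ha))]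
    refine ⟨_, ?_, rfl⟩
    rw [E1_apply]
    refine sub_mem (hF.E_mem ha) ?_
    have h1 := hF.mul hal (hF.r_mem y C.U.y_mem ha)
    have e1 : xd y - xx + (γ - xd y) = γ - xx := by abel
    rw [e1, zero_add] at h1
    exact h1
  ex := by
    rintro γ _ ⟨a, ha, rfl⟩
    obtain ⟨z, h1, h2, h3⟩ := hF.ex ha
    exact ⟨psi (u * wi) d z, hpZ z h1, hpH _ z h2, by rw [C.pDel (hZΛ h1), h3]⟩

/-- `g'` is in `F' 0`. -/
theorem Chd.gg_mem (C : Chd s Λ Del E L r g h y u Vi d wi Λ' Del' E' L' r')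
    (hF : Fl s Del E L r one xx xd H Z F N)
    (hg0 : ∀ t ∈ L, ∀ t' ∈ L, g t t' ∈ F 0 (xx - xd t - xd t'))
    (hka : ∀ t ∈ L, ka r u Vi t ∈ F 0 (xd y - xd t)) {t t' : M} (ht : t ∈ L) (ht' : t' ∈ L) :
    gg r g y u Vi t t' ∈ F 0 (xx - xd t - xd t') := by
  have hy := C.U.y_mem
  rw [gg]
  have h1 := hF.mul (hka t' ht') (hg0 t ht y hy)
  have h2 := hF.mul (hka t ht) (hg0 y hy t' ht')
  have h3 := hF.mul (hF.mul (hka t ht) (hka t' ht')) (hg0 y hy y hy)
  have e1 : xd y - xd t' + (xx - xd t - xd y) = xx - xd t - xd t' := by abel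
  have e2 : xd y - xd t + (xx - xd y - xd t') = xx - xd t - xd t' := by abel
  have e3 : xd y - xd t + (xd y - xd t') + (xx - xd y - xd y) = xx - xd t - xd t' := by abel
  rw [e1] at h1
  rw [e2] at h2
  rw [e3] at h3
  exact add_mem (sub_mem (sub_mem (hg0 t ht t' ht') h1) h2) h3

/-- `h'` is in `F' 1`. -/
theorem Chd.hh_mem (C : Chd s Λ Del E L r g h y u Vi d wi Λ' Del' E' L' r')
    (hF : Fl s Del E L r one xx xd H Z F N)
    (hg0 : ∀ t ∈ L, ∀ t' ∈ L, g t t' ∈ F 0 (xx - xd t - xd t'))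
    (hh1 : ∀ t ∈ L, h t ∈ F 1 (-xd t))
    (hka : ∀ t ∈ L, ka r u Vi t ∈ F 0 (xd y - xd t))
    (hal : al E u Vi ∈ F 1 (xd y - xx)) {t : M} (ht : t ∈ L) :
    hh E r g h y u Vi t ∈ F 1 (-xd t) := by
  have hy := C.U.y_mem
  rw [hh]
  have h1 := hF.mul (hka t ht) (hh1 y hy)
  have h2 := hF.mul hal (hg0 t ht y hy)
  have h3 := hF.mul (hF.mul hal (hka t ht)) (hg0 y hy y hy)
  have e1 : xd y - xd t + -xd y = -xd t := by abel
  have e2 : xd y - xx + (xx - xd t - xd y) = -xd t := by abel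
  have e3 : xd y - xx + (xd y - xd t) + (xx - xd y - xd y) = -xd t := by abel
  rw [e1] at h1
  rw [e2] at h2
  rw [e3] at h3
  exact sub_mem (add_mem (sub_mem (hh1 t ht) h1) h2) h3

end child

end AnWL.Nd
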