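import Pool.Agent.Helper57.G2.Psi

/-!
# Project G2 (MP_5f0082_gt): systems of operators and their restriction to `{u = 0}`

`Br s Λ Del E L r g h`: on the subalgebra `Λ` (the elements of level `L`), `Del` odd with square zero, `E` even,
`r t` odd (`t ∈ L`), `{r t, r t'} = g t t' E`, `[r t, E] = h t E`, `Del` (anti)commutes with all of them.
`u ∈ Λ` odd, `Del u = 0`, `V = r y u` invertible: `R t = r t - κ t r y`, `E₁ = E - α r y` with
`κ t = r t u / V`, `α = E u / V` satisfy the same relations and kill `u`; `Br.child`: the images under `psi`.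
-/

set_option autoImplicit false

namespace AnWL.Nd

variable {A : Type} [Ring A] [Algebra ℚ A] {M : Type}

/-- A system of operators on `Λ`. -/
structure Br (s : A →ₐ[ℚ] A) (Λ : Subalgebra ℚ A) (Del E : A →ₗ[ℚ] A) (L : Set M)
    (r : M → A →ₗ[ℚ] A) (g : M → M → A) (h : M → A) : Prop where
  sg : Sg s
  Del_od : OD s Del
  E_ed : ED s E
  r_od : ∀ t ∈ L, OD s (r t)
  Del_Λ : ∀ a ∈ Λ, Del a ∈ Λ
  E_Λ : ∀ a ∈ Λ, E a ∈ Λ
  r_Λ : ∀ t ∈ L, ∀ a ∈ Λ, r t a ∈ Λ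
  DD : ∀ a ∈ Λ, Del (Del a) = 0
  DE : ∀ a ∈ Λ, Del (E a) = E (Del a)
  Dr : ∀ t ∈ L, ∀ a ∈ Λ, Del (r t a) = -r t (Del a)
  rr : ∀ t ∈ L, ∀ t' ∈ L, ∀ a ∈ Λ, r t (r t' a) + r t' (r t a) = g t t' * E a
  rE : ∀ t ∈ L, ∀ a ∈ Λ, r t (E a) - E (r t a) = h t * E a

/-- The odd closed element `u` with `r y u` invertible. -/
structure Eu (s : A →ₐ[ℚ] A) (Λ : Subalgebra ℚ A) (Del : A →ₗ[ℚ] A) (L : Set M)
    (r : M → A →ₗ[ℚ] A) (y : M) (u Vi : A) : Prop where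
  y_mem : y ∈ L
  u_mem : u ∈ Λ
  Vi_mem : Vi ∈ Λ
  su : s u = -u
  Du : Del u = 0
  VVi : r y u * Vi = 1

section
variable {s : A →ₐ[ℚ] A} {Λ : Subalgebra ℚ A} {Del E : A →ₗ[ℚ] A} {L : Set M}
  {r : M → A →ₗ[ℚ] A} {g : M → M → A} {h : M → A} {y : M} {u Vi : A}

/-- `κ t`. -/
def ka (r : M → A →ₗ[ℚ] A) (u Vi : A) (t : M) : A := r t u * Vi

/-- `α`. -/
def al (E : A →ₗ[ℚ] A) (u Vi : A) : A := E u * Vi

/-- `R t = r t - κ t r y`. -/
def Rt (r : M → A →ₗ[ℚ] A) (y : M) (u Vi : A) (t : M) : A →ₗ[ℚ] A :=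
  r t - (LinearMap.mulLeft ℚ (ka r u Vi t)).comp (r y)

/-- `E₁ = E - α r y`. -/
def E1 (E : A →ₗ[ℚ] A) (r : M → A →ₗ[ℚ] A) (y : M) (u Vi : A) : A →ₗ[ℚ] A :=
  E - (LinearMap.mulLeft ℚ (al E u Vi)).comp (r y)

theorem Rt_apply (t : M) (a : A) : Rt r y u Vi t a = r t a - ka r u Vi t * r y a := rfl

theorem E1_apply (a : A) : E1 E r y u Vi a = E a - al E u Vi * r y a := rfl

theorem Br.sV (B : Br s Λ Del E L r g h) (U : Eu s Λ Del L r y u Vi) : s (r y u) = r y u := by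
  rw [(B.r_od y U.y_mem).sg, U.su, map_neg, neg_neg]

theorem Br.sVi (B : Br s Λ Del E L r g h) (U : Eu s Λ Del L r y u Vi) : s Vi = Vi :=
  B.sg.inv_even (B.sV U) U.VVi

theorem Br.ViV (B : Br s Λ Del E L r g h) (U : Eu s Λ Del L r y u Vi) : Vi * r y u = 1 :=
  B.sg.inv_comm (B.sV U) U.VVi

theorem Br.ska (B : Br s Λ Del E L r g h) (U : Eu s Λ Del L r y u Vi) {t : M} (ht : t ∈ L) :
    s (ka r u Vi t) = ka r u Vi t := by
  rw [ka, map_mul, B.sVi U, (B.r_od t ht).sg, U.su, map_neg, neg_neg]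

theorem Br.sal (B : Br s Λ Del E L r g h) (U : Eu s Λ Del L r y u Vi) :
    s (al E u Vi) = -al E u Vi := by
  rw [al, map_mul, B.sVi U, B.E_ed.sg, U.su, map_neg, neg_mul]

theorem Br.ka_mem (B : Br s Λ Del E L r g h) (U : Eu s Λ Del L r y u Vi) {t : M} (ht : t ∈ L) :
    ka r u Vi t ∈ Λ := Λ.mul_mem (B.r_Λ t ht u U.u_mem) U.Vi_mem

theorem Br.al_mem (B : Br s Λ Del E L r g h) (U : Eu s Λ Del L r y u Vi) :
    al E u Vi ∈ Λ := Λ.mul_mem (B.E_Λ u U.u_mem) U.Vi_mem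

theorem Br.kaV (B : Br s Λ Del E L r g h) (U : Eu s Λ Del L r y u Vi) (t : M) :
    ka r u Vi t * r y u = r t u := by
  rw [ka, mul_assoc, B.ViV U, mul_one]

theorem Br.alV (B : Br s Λ Del E L r g h) (U : Eu s Λ Del L r y u Vi) :
    al E u Vi * r y u = E u := by
  rw [al, mul_assoc, B.ViV U, mul_one]

theorem Br.Rt_u (B : Br s Λ Del E L r g h) (U : Eu s Λ Del L r y u Vi) (t : M) :
    Rt r y u Vi t u = 0 := by
  rw [Rt_apply, B.kaV U, sub_self]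

theorem Br.E1_u (B : Br s Λ Del E L r g h) (U : Eu s Λ Del L r y u Vi) :
    E1 E r y u Vi u = 0 := by
  rw [E1_apply, B.alV U, sub_self]

theorem Br.Rt_od (B : Br s Λ Del E L r g h) (U : Eu s Λ Del L r y u Vi) {t : M} (ht : t ∈ L) :
    OD s (Rt r y u Vi t) :=
  (B.r_od t ht).sub_smul B.sg (B.r_od y U.y_mem) (B.ska U ht)

theorem Br.E1_ed (B : Br s Λ Del E L r g h) (U : Eu s Λ Del L r y u Vi) :
    ED s (E1 E r y u Vi) :=
  B.E_ed.sub_smul B.sg (B.r_od y U.y_mem) (B.sal U)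

theorem Br.Rt_mem (B : Br s Λ Del E L r g h) (U : Eu s Λ Del L r y u Vi) {t : M} (ht : t ∈ L)
    {a : A} (ha : a ∈ Λ) : Rt r y u Vi t a ∈ Λ :=
  Λ.sub_mem (B.r_Λ t ht a ha) (Λ.mul_mem (B.ka_mem U ht) (B.r_Λ y U.y_mem a ha))

theorem Br.E1_mem (B : Br s Λ Del E L r g h) (U : Eu s Λ Del L r y u Vi)
    {a : A} (ha : a ∈ Λ) : E1 E r y u Vi a ∈ Λ :=
  Λ.sub_mem (B.E_Λ a ha) (Λ.mul_mem (B.al_mem U) (B.r_Λ y U.y_mem a ha))

theorem Br.DV (B : Br s Λ Del E L r g h) (U : Eu s Λ Del L r y u Vi) : Del (r y u) = 0 := by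
  rw [B.Dr y U.y_mem u U.u_mem, U.Du, map_zero, neg_zero]

theorem Br.DVi (B : Br s Λ Del E L r g h) (U : Eu s Λ Del L r y u Vi) : Del Vi = 0 := by
  rw [B.Del_od.inv B.sg (B.sV U) U.VVi, B.DV U, mul_zero, zero_mul, neg_zero]

theorem Br.Dka (B : Br s Λ Del E L r g h) (U : Eu s Λ Del L r y u Vi) {t : M} (ht : t ∈ L) :
    Del (ka r u Vi t) = 0 := by
  rw [ka, B.Del_od.mul, B.DVi U, mul_zero, add_zero, B.Dr t ht u U.u_mem, U.Du, map_zero,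
    neg_zero, zero_mul]

theorem Br.Dal (B : Br s Λ Del E L r g h) (U : Eu s Λ Del L r y u Vi) :
    Del (al E u Vi) = 0 := by
  rw [al, B.Del_od.mul, B.DVi U, mul_zero, add_zero, B.DE u U.u_mem, U.Du, map_zero, zero_mul]

theorem Br.DRt (B : Br s Λ Del E L r g h) (U : Eu s Λ Del L r y u Vi) {t : M} (ht : t ∈ L)
    {a : A} (ha : a ∈ Λ) : Del (Rt r y u Vi t a) = -Rt r y u Vi t (Del a) := by
  rw [Rt_apply, Rt_apply, map_sub, B.Del_od.mul, B.Dka U ht, zero_mul, zero_add, B.ska U ht,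
    B.Dr t ht a ha, B.Dr y U.y_mem a ha, mul_neg]
  abel

theorem Br.DE1 (B : Br s Λ Del E L r g h) (U : Eu s Λ Del L r y u Vi)
    {a : A} (ha : a ∈ Λ) : Del (E1 E r y u Vi a) = E1 E r y u Vi (Del a) := by
  rw [E1_apply, E1_apply, map_sub, B.Del_od.mul, B.Dal U, zero_mul, zero_add, B.sal U,
    B.DE a ha, B.Dr y U.y_mem a ha, neg_mul_neg]

/-- The bracket coefficient of `R t`, `R t'`. -/
def gg (r : M → A →ₗ[ℚ] A) (g : M → M → A) (y : M) (u Vi : A) (t t' : M) : A :=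
  g t t' - ka r u Vi t' * g t y - ka r u Vi t * g y t' + ka r u Vi t * ka r u Vi t' * g y y

/-- The bracket coefficient of `R t`, `E₁`. -/
def hh (E : A →ₗ[ℚ] A) (r : M → A →ₗ[ℚ] A) (g : M → M → A) (h : M → A) (y : M) (u Vi : A)
    (t : M) : A :=
  h t - ka r u Vi t * h y + al E u Vi * g t y - al E u Vi * ka r u Vi t * g y y

theorem Br.Rrr (B : Br s Λ Del E L r g h) (U : Eu s Λ Del L r y u Vi) {t t' : M} (ht : t ∈ L)
    (ht' : t' ∈ L) {a : A} (ha : a ∈ Λ) :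
    Rt r y u Vi t (Rt r y u Vi t' a) + Rt r y u Vi t' (Rt r y u Vi t a) =
      gg r g y u Vi t t' * E1 E r y u Vi a := by
  have key : ∀ b ∈ Λ, Rt r y u Vi t (Rt r y u Vi t' b) + Rt r y u Vi t' (Rt r y u Vi t b) =
      gg r g y u Vi t t' * E b -
        ((r t (ka r u Vi t') - ka r u Vi t * r y (ka r u Vi t')) +
          (r t' (ka r u Vi t) - ka r u Vi t' * r y (ka r u Vi t))) * r y b := by
    intro b hb
    exact bracket_rr B.sg Λ.toSubmodule (B.r_od t ht) (B.r_od t' ht') (B.r_od y U.y_mem)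
      (B.r_Λ t ht) (B.r_Λ t' ht') (B.r_Λ y U.y_mem) (B.rr t ht t' ht') (B.rr t ht y U.y_mem)
      (B.rr y U.y_mem t' ht') (B.rr y U.y_mem y U.y_mem) (B.ska U ht) (B.ska U ht') hb
  have h1 := key u U.u_mem
  rw [B.Rt_u U, B.Rt_u U, map_zero, map_zero, add_zero] at h1
  have h2 : ((r t (ka r u Vi t') - ka r u Vi t * r y (ka r u Vi t')) +
      (r t' (ka r u Vi t) - ka r u Vi t' * r y (ka r u Vi t))) =
      gg r g y u Vi t t' * al E u Vi := by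
    have h3 := sub_eq_zero.1 h1.symm
    have h4 := congrArg (fun z => z * Vi) h3
    simp only [mul_assoc, U.VVi, mul_one] at h4
    rw [al]
    exact h4.symm
  rw [key a ha, h2, E1_apply, mul_sub, mul_assoc]

theorem Br.RrE (B : Br s Λ Del E L r g h) (U : Eu s Λ Del L r y u Vi) {t : M} (ht : t ∈ L)
    {a : A} (ha : a ∈ Λ) :
    Rt r y u Vi t (E1 E r y u Vi a) - E1 E r y u Vi (Rt r y u Vi t a) =
      hh E r g h y u Vi t * E1 E r y u Vi a := by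
  have key : ∀ b ∈ Λ, Rt r y u Vi t (E1 E r y u Vi b) - E1 E r y u Vi (Rt r y u Vi t b) =
      hh E r g h y u Vi t * E b -
        ((r t (al E u Vi) - ka r u Vi t * r y (al E u Vi)) -
          (E (ka r u Vi t) - al E u Vi * r y (ka r u Vi t))) * r y b := by
    intro b hb
    exact bracket_rE B.sg Λ.toSubmodule (B.r_od t ht) (B.r_od y U.y_mem) B.E_ed
      (B.rr t ht y U.y_mem) (B.rr y U.y_mem y U.y_mem) (B.rE t ht) (B.rE y U.y_mem)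
      (B.ska U ht) (B.sal U) hb
  have h1 := key u U.u_mem
  rw [B.E1_u U, B.Rt_u U, map_zero, map_zero, sub_zero] at h1
  have h2 : ((r t (al E u Vi) - ka r u Vi t * r y (al E u Vi)) -
      (E (ka r u Vi t) - al E u Vi * r y (ka r u Vi t))) =
      hh E r g h y u Vi t * al E u Vi := by
    have h3 := sub_eq_zero.1 h1.symm
    have h4 := congrArg (fun z => z * Vi) h3
    simp only [mul_assoc, U.VVi, mul_one] at h4
    rw [al]
    exact h4.symm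
  rw [key a ha, h2, E1_apply, mul_sub, mul_assoc]

end

section child
variable {s : A →ₐ[ℚ] A} {Λ : Subalgebra ℚ A} {Del E : A →ₗ[ℚ] A} {L : Set M}
  {r : M → A →ₗ[ℚ] A} {g : M → M → A} {h : M → A} {y : M} {u Vi : A}

/-- The restriction to `{u = 0}`. `d = ∂_y`, `wi = (∂_y u)⁻¹`; `Del'`, `E'`, `r'` are superderivations which on
the elements of `Λ` killed by `d` are the images under `psi` of `Del`, `E₁`, `R t`. -/
theorem Br.child (B : Br s Λ Del E L r g h) (U : Eu s Λ Del L r y u Vi)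
    {d : A →ₗ[ℚ] A} {wi : A} (hd : El s d u wi) (hwi : wi ∈ Λ) (hdΛ : ∀ a ∈ Λ, d a ∈ Λ)
    {Λ' : Subalgebra ℚ A} (hΛ' : ∀ a, a ∈ Λ' ↔ a ∈ Λ ∧ d a = 0) {L' : Set M} (hL' : L' ⊆ L)
    {Del' E' : A →ₗ[ℚ] A} {r' : M → A →ₗ[ℚ] A}
    (hDel : OD s Del') (hE : ED s E') (hr : ∀ t ∈ L', OD s (r' t))
    (eDel : ∀ b ∈ Λ', Del' b = psi (u * wi) d (Del b))
    (eE : ∀ b ∈ Λ', E' b = psi (u * wi) d (E1 E r y u Vi b))
    (er : ∀ t ∈ L', ∀ b ∈ Λ', r' t b = psi (u * wi) d (Rt r y u Vi t b)) :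
    Br s Λ' Del' E' L' r' (fun t t' => psi (u * wi) d (gg r g y u Vi t t'))
      (fun t => psi (u * wi) d (hh E r g h y u Vi t)) := by
  have hpΛ : ∀ a ∈ Λ, psi (u * wi) d a ∈ Λ' := by
    intro a ha
    refine (hΛ' _).2 ⟨?_, d_psi hd.od hd.dd hd.dv a⟩
    exact Λ.sub_mem ha (Λ.mul_mem (Λ.mul_mem U.u_mem hwi) (hdΛ a ha))
  have hsub : ∀ b ∈ Λ', b ∈ Λ := fun b hb => ((hΛ' b).1 hb).1
  have hfix : ∀ b ∈ Λ', psi (u * wi) d b = b := fun b hb => psi_of_zero ((hΛ' b).1 hb).2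
  have pDel : ∀ a ∈ Λ, Del' (psi (u * wi) d a) = psi (u * wi) d (Del a) := by
    intro a ha
    rw [eDel _ (hpΛ a ha), hd.psi_OD B.Del_od U.Du]
  have pE : ∀ a ∈ Λ, E' (psi (u * wi) d a) = psi (u * wi) d (E1 E r y u Vi a) := by
    intro a ha
    rw [eE _ (hpΛ a ha), hd.psi_ED (B.E1_ed U) (B.E1_u U)]
  have pr : ∀ t ∈ L', ∀ a ∈ Λ,
      r' t (psi (u * wi) d a) = psi (u * wi) d (Rt r y u Vi t a) := by
    intro t ht a ha
    rw [er t ht _ (hpΛ a ha), hd.psi_OD (B.Rt_od U (hL' ht)) (B.Rt_u U t)]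
  refine ⟨B.sg, hDel, hE, hr, ?_, ?_, ?_, ?_, ?_, ?_, ?_, ?_⟩
  · intro a ha
    rw [eDel a ha]
    exact hpΛ _ (B.Del_Λ a (hsub a ha))
  · intro a ha
    rw [eE a ha]
    exact hpΛ _ (B.E1_mem U (hsub a ha))
  · intro t ht a ha
    rw [er t ht a ha]
    exact hpΛ _ (B.Rt_mem U (hL' ht) (hsub a ha))
  · intro a ha
    rw [eDel a ha, pDel _ (B.Del_Λ a (hsub a ha)), B.DD a (hsub a ha), map_zero]
  · intro a ha
    rw [eE a ha, pDel _ (B.E1_mem U (hsub a ha)), B.DE1 U (hsub a ha), eDel a ha,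
      pE _ (B.Del_Λ a (hsub a ha))]
  · intro t ht a ha
    rw [er t ht a ha, pDel _ (B.Rt_mem U (hL' ht) (hsub a ha)), B.DRt U (hL' ht) (hsub a ha),
      eDel a ha, pr t ht _ (B.Del_Λ a (hsub a ha)), map_neg]
  · intro t ht t' ht' a ha
    rw [er t' ht' a ha, er t ht a ha, pr t ht _ (B.Rt_mem U (hL' ht') (hsub a ha)),
      pr t' ht' _ (B.Rt_mem U (hL' ht) (hsub a ha)), ← map_add,
      B.Rrr U (hL' ht) (hL' ht') (hsub a ha), hd.mul, ← eE a ha]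
  · intro t ht a ha
    rw [eE a ha, er t ht a ha, pr t ht _ (B.E1_mem U (hsub a ha)),
      pE _ (B.Rt_mem U (hL' ht) (hsub a ha)), ← map_sub, B.RrE U (hL' ht) (hsub a ha), hd.mul]

theorem Br.p_mem (U : Eu s Λ Del L r y u Vi)
    {d : A →ₗ[ℚ] A} {wi : A} (hd : El s d u wi) (hwi : wi ∈ Λ) (hdΛ : ∀ a ∈ Λ, d a ∈ Λ)
    {Λ' : Subalgebra ℚ A} (hΛ' : ∀ a, a ∈ Λ' ↔ a ∈ Λ ∧ d a = 0) {a : A} (ha : a ∈ Λ) :
    psi (u * wi) d a ∈ Λ' :=
  (hΛ' _).2 ⟨Λ.sub_mem ha (Λ.mul_mem (Λ.mul_mem U.u_mem hwi) (hdΛ a ha)),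
    d_psi hd.od hd.dd hd.dv a⟩

end child

end AnWL.Nd
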