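import Pool.Agent.Helper57.G2.Pole

/-!
# Project OC: the child of a node

`ND.IsChild ν ν' y u V w kv k δ`: `ν'` is the restriction of `ν` to `{u = 0}` (`u` odd, closed, of degree `δ`;
`V = r y u`, `w = ∂_y u` units; all poles along `Q`, `Q ^ kv * u * w⁻¹` regular; the poles of `ν'` lie along
`psi Q ^ k`, `k ≥ kv + 2`). `IsChild.chd`, `IsChild.g_eq`, `IsChild.h_eq`, `IsChild.psi_fn`.
-/

set_option autoImplicit false

namespace AnOC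
open AnWL.Nd

variable {M Γ : Type} [AddCommGroup Γ] {xd : M → Γ} {e d : Γ} {N : NR M Γ xd e d}

/-- The inverse of a unit. -/
abbrev ui (V : N.Aˣ) : N.A := ((V⁻¹ : N.Aˣ) : N.A)

structure ND.IsChild [DecidableEq M] (ν ν' : ND N) (y : M) (u : N.A) (V w : N.Aˣ) (kv k : ℕ)
    (δ : Γ) : Prop where
  y_mem : y ∈ ν.L
  u_fn : ν.Fn u
  u_s : N.s u = -u
  u_Δ : ν.Δ u = 0
  u_d : u ∈ N.Hd δ
  V_eq : (V : N.A) = ν.r y u
  Vi_fn : ν.Fn (ui V)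
  w_eq : (w : N.A) = N.pd y u
  v_R : (ν.Q : N.A) ^ kv * (u * ui w) ∈ N.R
  k_le : kv + 2 ≤ k
  L' : ν'.L = ν.L.erase y
  P' : ν'.P = psi (u * ui w) (N.pd y) ν.P
  φ' : (ν'.φ : N.A) = psi (u * ui w) (N.pd y) ((ν.φ : N.A) - al ν.EL u (ui V) * ν.ρ y)
  ρ' : ∀ j ∈ ν'.L, ν'.ρ j =
    psi (u * ui w) (N.pd y) (ν.ρ j - ka ν.rL u (ui V) j * ν.ρ y)
  Q' : (ν'.Q : N.A) = psi (u * ui w) (N.pd y) (ν.Q : N.A) ^ k
  q' : ν'.q = k • ν.q

section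
variable [DecidableEq M] {ν ν' : ND N} {y : M} {u : N.A} {V w : N.Aˣ} {kv k : ℕ} {δ : Γ}

theorem ND.IsChild.el (C : ν.IsChild ν' y u V w kv k δ) : El N.s (N.pd y) u (ui w) :=
  ⟨N.sg, N.pd_od y, N.pd_self y, C.u_s, by rw [← C.w_eq]; exact w.mul_inv⟩

theorem ND.IsChild.V_s (h : ν.Ok) (C : ν.IsChild ν' y u V w kv k δ) : N.s (V : N.A) = V := by
  rw [C.V_eq, ← ND.rL_apply, (ND.rL_od (h.ρ_s y C.y_mem)).sg, C.u_s, map_neg, neg_neg]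

theorem ND.IsChild.V_lv (h : ν.Ok) (C : ν.IsChild ν' y u V w kv k δ) : (V : N.A) ∈ N.LvS ν.L := by
  rw [C.V_eq]
  exact ND.LvS_r (h.ρ_fn y C.y_mem).1 C.u_fn.1

theorem ND.IsChild.Vi_lv (h : ν.Ok) (C : ν.IsChild ν' y u V w kv k δ) : ui V ∈ N.LvS ν.L :=
  NR.LvS_inv (C.V_lv h) (C.V_s h) V.mul_inv

theorem ND.IsChild.w_lv (C : ν.IsChild ν' y u V w kv k δ) : (w : N.A) ∈ N.LvS ν.L := by
  rw [C.w_eq]
  exact NR.LvS_pd C.u_fn.1 y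

theorem ND.IsChild.w_s (C : ν.IsChild ν' y u V w kv k δ) : N.s (w : N.A) = w := by
  rw [C.w_eq]
  exact C.el.sw

theorem ND.IsChild.wi_lv (C : ν.IsChild ν' y u V w kv k δ) : ui w ∈ N.LvS ν.L :=
  NR.LvS_inv C.w_lv C.w_s w.mul_inv

theorem ND.IsChild.eu (h : ν.Ok) (C : ν.IsChild ν' y u V w kv k δ) :
    Eu N.s (N.LvS ν.L) ν.ΔL (ν.L : Set M) ν.rL y u (ui V) where
  y_mem := C.y_mem
  u_mem := C.u_fn.1
  Vi_mem := C.Vi_lv h
  su := C.u_s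
  Du := C.u_Δ
  VVi := by
    rw [ND.rL_apply, ← C.V_eq]
    exact V.mul_inv

theorem ND.IsChild.lv_iff (C : ν.IsChild ν' y u V w kv k δ) (a : N.A) :
    a ∈ N.LvS ν'.L ↔ a ∈ N.LvS ν.L ∧ N.pd y a = 0 := by
  constructor
  · intro ha
    refine ⟨fun j hj => ha j ?_, ha y ?_⟩
    · rw [C.L']
      exact fun hj' => hj (Finset.mem_of_mem_erase hj')
    · rw [C.L']
      exact Finset.notMem_erase y ν.L
  · rintro ⟨ha, hy⟩ j hj
    rw [C.L', Finset.mem_erase, not_and] at hj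
    by_cases hjy : j = y
    · rw [hjy]; exact hy
    · exact ha j (hj hjy)

theorem ND.IsChild.P'_s (h : ν.Ok) (C : ν.IsChild ν' y u V w kv k δ) : N.s ν'.P = -ν'.P := by
  rw [C.P', psi_s C.el.od C.el.sv, h.P_s, map_neg]

theorem ND.IsChild.φ'_s (h : ν.Ok) (C : ν.IsChild ν' y u V w kv k δ) :
    N.s (ν'.φ : N.A) = ν'.φ := by
  rw [C.φ', psi_s C.el.od C.el.sv, map_sub, map_mul, h.φ_s, (ND.br h).sal (C.eu h),
    h.ρ_s y C.y_mem, neg_mul_neg]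

theorem ND.IsChild.sub (C : ν.IsChild ν' y u V w kv k δ) {j : M} (hj : j ∈ ν'.L) : j ∈ ν.L := by
  rw [C.L'] at hj
  exact Finset.mem_of_mem_erase hj

theorem ND.IsChild.ρ'_s (h : ν.Ok) (C : ν.IsChild ν' y u V w kv k δ) {j : M} (hj : j ∈ ν'.L) :
    N.s (ν'.ρ j) = -ν'.ρ j := by
  rw [C.ρ' j hj, psi_s C.el.od C.el.sv, map_sub, map_mul, h.ρ_s j (C.sub hj),
    (ND.br h).ska (C.eu h) (C.sub hj), h.ρ_s y C.y_mem, mul_neg, ← map_neg]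
  congr 1
  abel

/-- The child in the language of `ChF.lean`. -/
theorem ND.IsChild.chd (h : ν.Ok) (C : ν.IsChild ν' y u V w kv k δ) :
    Chd N.s (N.LvS ν.L) ν.ΔL ν.EL (ν.L : Set M) ν.rL ν.g ν.h y u (ui V) (N.pd y) (ui w)
      (N.LvS ν'.L) ν'.ΔL ν'.EL (ν'.L : Set M) ν'.rL where
  B := ND.br h
  U := C.eu h
  hd := C.el
  hwi := C.wi_lv
  hdΛ a ha := NR.LvS_pd ha y
  hΛ' := C.lv_iff
  hL' j hj := C.sub hj
  hDel := ND.ΔL_od (C.P'_s h)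
  hE := ND.EL_ed (C.φ'_s h)
  hr j hj := ND.rL_od (C.ρ'_s h hj)
  eDel b hb := by
    have hb' := (C.lv_iff b).1 hb
    have h1 : N.pd y (N.D b) = 0 := by rw [N.pd_D, hb'.2, map_zero, neg_zero]
    have h2 : N.pd y (N.dx b) = 0 := by rw [← N.dx_pd, hb'.2, map_zero]
    show N.D b + ν'.P * N.dx b = psi (u * ui w) (N.pd y) (N.D b + ν.P * N.dx b)
    rw [map_add, C.el.mul, psi_of_zero h1, psi_of_zero h2, C.P']
  eE b hb := by
    have hb' := (C.lv_iff b).1 hb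
    have h2 : N.pd y (N.dx b) = 0 := by rw [← N.dx_pd, hb'.2, map_zero]
    show (ν'.φ : N.A) * N.dx b = psi (u * ui w) (N.pd y)
      ((ν.φ : N.A) * N.dx b - al ν.EL u (ui V) * (N.pd y b + ν.ρ y * N.dx b))
    rw [hb'.2, zero_add, ← mul_assoc, ← sub_mul, C.el.mul, psi_of_zero h2, C.φ']
  er j hj b hb := by
    have hb' := (C.lv_iff b).1 hb
    have h1 : N.pd y (N.pd j b) = 0 := by rw [N.pd_pd, hb'.2, map_zero, neg_zero]
    have h2 : N.pd y (N.dx b) = 0 := by rw [← N.dx_pd, hb'.2, map_zero]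
    show N.pd j b + ν'.ρ j * N.dx b = psi (u * ui w) (N.pd y)
      ((N.pd j b + ν.ρ j * N.dx b) - ka ν.rL u (ui V) j * (N.pd y b + ν.ρ y * N.dx b))
    have e1 : (N.pd j b + ν.ρ j * N.dx b) - ka ν.rL u (ui V) j * (N.pd y b + ν.ρ y * N.dx b) =
        N.pd j b + (ν.ρ j - ka ν.rL u (ui V) j * ν.ρ y) * N.dx b := by
      rw [hb'.2, zero_add, ← mul_assoc, sub_mul]; abel
    rw [e1, map_add, C.el.mul, psi_of_zero h1, psi_of_zero h2, C.ρ' j hj]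

/-- The bracket coefficients of the child. -/
theorem ND.IsChild.g_eq (h : ν.Ok) (C : ν.IsChild ν' y u V w kv k δ) {i j : M} (hi : i ∈ ν'.L)
    (hj : j ∈ ν'.L) :
    ν'.g i j = psi (u * ui w) (N.pd y) (gg ν.rL ν.g y u (ui V) i j) := by
  have h1 := (C.chd h).br.rr i hi j hj _ (N.x_lv ν'.L)
  rw [ND.rL_apply, ND.rL_apply, ND.rL_apply, ND.rL_apply, ND.EL_apply, ND.r_x, ND.r_x,
    ND.E_x] at h1
  rw [ND.g, h1, ← N.even_comm _ _ (C.φ'_s h), ← mul_assoc, Units.inv_mul, one_mul]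

theorem ND.IsChild.h_eq (h : ν.Ok) (C : ν.IsChild ν' y u V w kv k δ) {j : M} (hj : j ∈ ν'.L) :
    ν'.h j = psi (u * ui w) (N.pd y) (hh ν.EL ν.rL ν.g ν.h y u (ui V) j) := by
  have h1 := (C.chd h).br.rE j hj _ (N.x_lv ν'.L)
  rw [ND.rL_apply, ND.rL_apply, ND.EL_apply, ND.EL_apply, ND.r_x, ND.E_x] at h1
  rw [ND.h, h1, ← N.even_comm _ _ (C.φ'_s h), ← mul_assoc, Units.inv_mul, one_mul]

theorem ND.IsChild.Vi_d (C : ν.IsChild ν' y u V w kv k δ) (hρ : ν.ρ y ∈ N.Hd (e - xd y)) :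
    (V : N.A) ∈ N.Hd (δ - xd y) := by
  rw [C.V_eq]
  refine add_mem (N.Hd_pd _ _ _ C.u_d) ?_
  have := N.Hd_mul _ _ _ _ hρ (N.Hd_dx _ _ C.u_d)
  have e1 : e - xd y + (δ - e) = δ - xd y := by abel
  rwa [e1] at this

/-- `psi` preserves the degrees. -/
theorem ND.IsChild.psi_d (C : ν.IsChild ν' y u V w kv k δ) {γ : Γ} {a : N.A} (ha : a ∈ N.Hd γ) :
    psi (u * ui w) (N.pd y) a ∈ N.Hd γ := by
  rw [psi_apply]
  refine sub_mem ha ?_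
  have hw : (w : N.A) ∈ N.Hd (δ - xd y) := by rw [C.w_eq]; exact N.Hd_pd _ _ _ C.u_d
  have := N.Hd_mul _ _ _ _ (N.Hd_mul _ _ _ _ C.u_d (N.Hd_inv _ w hw)) (N.Hd_pd _ y _ ha)
  have e1 : δ + -(δ - xd y) + (γ - xd y) = γ := by abel
  rwa [e1] at this

/-- `psi (Q ^ j a) ∈ T` for `a ∈ T`, `j ≥ kv + 1` (`T = R` or `T = I`). -/
theorem ND.IsChild.psiT (h : ν.Ok) (C : ν.IsChild ν' y u V w kv k δ) {T : Submodule ℚ N.A}
    (hl : ∀ r ∈ N.R, ∀ a ∈ T, r * a ∈ T) (hp : ∀ a ∈ T, N.pd y a ∈ T) {j : ℕ} (hj : kv + 1 ≤ j)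
    {a : N.A} (ha : a ∈ T) :
    psi (u * ui w) (N.pd y) ((ν.Q : N.A) ^ j * a) ∈ T := by
  obtain ⟨i, rfl⟩ := Nat.exists_eq_add_of_le hj
  have hW := h.Q_ev
  rw [psi_apply]
  refine T.sub_mem (hl _ (N.R.pow_mem hW.R _) _ ha) ?_
  have h1 : ∀ m : ℕ, ∃ b ∈ N.R, N.pd y ((ν.Q : N.A) ^ (m + 1)) = (ν.Q : N.A) ^ m * b := by
    intro m
    induction m with
    | zero =>
      exact ⟨N.pd y (ν.Q : N.A), N.pd_R _ _ hW.R, by rw [zero_add, pow_one, pow_zero, one_mul]⟩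
    | succ m ih =>
      obtain ⟨b, hb, h2⟩ := ih
      refine ⟨b + N.pd y (ν.Q : N.A), N.R.add_mem hb (N.pd_R _ _ hW.R), ?_⟩
      rw [pow_succ _ (m + 1), N.pd_mul, h2, (hW.pow (m + 1)).s, mul_add,
        pow_succ _ m, mul_assoc ((ν.Q : N.A) ^ m) b, ← hW.comm b,
        ← mul_assoc ((ν.Q : N.A) ^ m)]
  have hpow : ∀ m : ℕ, ∃ b ∈ T, N.pd y ((ν.Q : N.A) ^ (m + 1) * a) =
      (ν.Q : N.A) ^ m * b := by
    intro m
    obtain ⟨b, hb, h2⟩ := h1 m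
    refine ⟨b * a + (ν.Q : N.A) * N.pd y a, ?_, ?_⟩
    · exact T.add_mem (hl _ hb _ ha) (hl _ hW.R _ (hp _ ha))
    · rw [N.pd_mul, h2, (hW.pow (m + 1)).s, mul_add, mul_assoc, pow_succ, mul_assoc]
  obtain ⟨b, hb, h2⟩ := hpow (kv + i)
  have e0 : kv + 1 + i = (kv + i) + 1 := by omega
  rw [e0, h2]
  have e1 : u * ui w * ((ν.Q : N.A) ^ (kv + i) * b) =
      (ν.Q : N.A) ^ i * (((ν.Q : N.A) ^ kv * (u * ui w)) * b) := by
    rw [← mul_assoc, ← (hW.pow (kv + i)).comm (u * ui w), add_comm kv i, pow_add]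
    simp only [mul_assoc]
  rw [e1]
  exact hl _ (N.R.pow_mem hW.R i) _ (hl _ C.v_R _ hb)

theorem ND.IsChild.psiW (h : ν.Ok) (C : ν.IsChild ν' y u V w kv k δ) {j : ℕ} (hj : kv + 1 ≤ j)
    {a : N.A} (ha : a ∈ N.R) :
    psi (u * ui w) (N.pd y) ((ν.Q : N.A) ^ j * a) ∈ N.R :=
  C.psiT h (T := N.R.toSubmodule) (fun _ hr _ ha => N.R.mul_mem hr ha)
    (fun _ ha => N.pd_R y _ ha) hj ha

theorem ND.IsChild.psi_pow (C : ν.IsChild ν' y u V w kv k δ) (a : N.A) (j : ℕ) :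
    psi (u * ui w) (N.pd y) a ^ j = psi (u * ui w) (N.pd y) (a ^ j) := by
  induction j with
  | zero => rw [pow_zero, pow_zero, psi_one C.el.od]
  | succ j ih => rw [pow_succ, ih, pow_succ, C.el.mul]

/-- The poles of the child. -/
theorem ND.IsChild.psi_fn (h : ν.Ok) (C : ν.IsChild ν' y u V w kv k δ) {a : N.A}
    (ha : ν.Fn a) : ν'.Fn (psi (u * ui w) (N.pd y) a) := by
  refine ⟨(C.chd h).p_mem ha.1, ?_⟩
  obtain ⟨c, hc⟩ := ha.2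
  refine ⟨c + 1, ?_⟩
  rw [C.Q', ← pow_mul, C.psi_pow, ← C.el.mul]
  have hle : c + (kv + 1) ≤ k * (c + 1) := by
    have := C.k_le
    nlinarith
  obtain ⟨i, hi⟩ := Nat.exists_eq_add_of_le hle
  have e1 : (ν.Q : N.A) ^ (k * (c + 1)) * a =
      (ν.Q : N.A) ^ (i + (kv + 1)) * ((ν.Q : N.A) ^ c * a) := by
    rw [hi, ← mul_assoc, ← pow_add]
    congr 2
    omega
  rw [e1]
  exact C.psiW h (by omega) hc

end

end AnOC
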