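import Pool.Agent.Helper57.G2.Chi

/-!
# Project OC: the child of a node is a node; existence; back-substitution
-/

set_option autoImplicit false

namespace AnOC
open AnWL.Nd

variable {M Γ : Type} [AddCommGroup Γ] {xd : M → Γ} {e d : Γ} {N : NR M Γ xd e d}

theorem NR.Hd_pow {g : Γ} {a : N.A} (ha : a ∈ N.Hd g) (k : ℕ) : a ^ k ∈ N.Hd (k • g) := by
  induction k with
  | zero => rw [pow_zero, zero_smul]; exact N.Hd_one
  | succ k ih => rw [pow_succ, succ_nsmul]; exact N.Hd_mul _ _ _ _ ih ha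

section
variable [DecidableEq M] {ν ν' : ND N} {y : M} {u : N.A} {V w : N.Aˣ} {kv k : ℕ} {δ : Γ}

theorem ND.IsChild.Vi_d' (h : ν.Ok) (C : ν.IsChild ν' y u V w kv k δ) :
    ui V ∈ N.Hd (-(δ - xd y)) :=
  N.Hd_inv _ V (C.Vi_d (h.ρ_d y C.y_mem))

theorem ND.IsChild.ka_zz (h : ν.Ok) (C : ν.IsChild ν' y u V w kv k δ) {j : M} (hj : j ∈ ν.L) :
    ka ν.rL u (ui V) j ∈ N.ZZ ν.L h.Q_ev := by
  refine mul_mem ?_ (h.mem_zz.2 C.Vi_fn)
  have hu : u ∈ N.ZZ ν.L h.Q_ev := C.u_fn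
  exact add_mem (NR.ZZ_pd hu j) (mul_mem (h.mem_zz.2 (h.ρ_fn j hj)) (NR.ZZ_dx hu))

theorem ND.IsChild.al_zz (h : ν.Ok) (C : ν.IsChild ν' y u V w kv k δ) :
    al ν.EL u (ui V) ∈ N.ZZ ν.L h.Q_ev :=
  mul_mem (mul_mem (h.mem_zz.2 h.φ_fn) (NR.ZZ_dx (h := h.Q_ev) C.u_fn)) (h.mem_zz.2 C.Vi_fn)

theorem ND.IsChild.ka_d (h : ν.Ok) (C : ν.IsChild ν' y u V w kv k δ) {j : M} (hj : j ∈ ν.L) :
    ka ν.rL u (ui V) j ∈ N.Hd (xd y - xd j) := by
  have h1 : ν.r j u ∈ N.Hd (δ - xd j) := by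
    refine add_mem (N.Hd_pd _ _ _ C.u_d) ?_
    have := N.Hd_mul _ _ _ _ (h.ρ_d j hj) (N.Hd_dx _ _ C.u_d)
    have e1 : e - xd j + (δ - e) = δ - xd j := by abel
    rwa [e1] at this
  have h2 := N.Hd_mul _ _ _ _ h1 (C.Vi_d' h)
  have e1 : δ - xd j + -(δ - xd y) = xd y - xd j := by abel
  rwa [e1] at h2

theorem ND.IsChild.al_d (h : ν.Ok) (C : ν.IsChild ν' y u V w kv k δ) :
    al ν.EL u (ui V) ∈ N.Hd (xd y - e) := by
  have h1 : ν.E u ∈ N.Hd (0 + (δ - e)) := N.Hd_mul _ _ _ _ h.φ_d (N.Hd_dx _ _ C.u_d)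
  have h2 := N.Hd_mul _ _ _ _ h1 (C.Vi_d' h)
  have e1 : 0 + (δ - e) + -(δ - xd y) = xd y - e := by abel
  rwa [e1] at h2

/-- The inverse of `φ - α ρ_y`. -/
theorem φ_inv (hs : Sg N.s) {φ φi α ρ : N.A} (hφ : N.s φ = φ) (h1 : φ * φi = 1)
    (hα : N.s α = -α) : (φ - α * ρ) * (φi + φi * φi * (α * ρ)) = 1 ∧
      (φi + φi * φi * (α * ρ)) * (φ - α * ρ) = 1 := by
  have h2 : φi * φ = 1 := hs.inv_comm hφ h1
  have hi : N.s φi = φi := hs.inv_even hφ h1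
  have h3 : α * ρ * (α * ρ) = 0 := by
    rw [← mul_assoc, hs.odd_mul_mul hα, zero_mul]
  have h4 : α * ρ * φi = φi * (α * ρ) := (hs.even_comm φi _ hi).symm
  have h5 : α * ρ * φ = φ * (α * ρ) := (hs.even_comm φ _ hφ).symm
  constructor
  · have e1 : (φ - α * ρ) * (φi + φi * φi * (α * ρ)) =
        φ * φi + (φ * φi) * φi * (α * ρ) - α * ρ * φi - (α * ρ * φi) * φi * (α * ρ) := by
      noncomm_ring
    have e2 : (φi * (α * ρ)) * φi * (α * ρ) = φi * ((α * ρ * φi) * (α * ρ)) := by noncomm_ring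
    have e3 : φi * (φi * (α * ρ) * (α * ρ)) = φi * φi * (α * ρ * (α * ρ)) := by noncomm_ring
    rw [e1, h1, h4, e2, h4, e3, h3, mul_zero, one_mul]
    abel
  · have e1 : (φi + φi * φi * (α * ρ)) * (φ - α * ρ) =
        φi * φ - φi * (α * ρ) + φi * φi * (α * ρ * φ) - φi * φi * (α * ρ * (α * ρ)) := by
      noncomm_ring
    have e2 : φi * φi * (φ * (α * ρ)) = φi * ((φi * φ) * (α * ρ)) := by noncomm_ring
    rw [e1, h2, h3, h5, e2, h2, mul_zero, one_mul]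
    abel

theorem ND.IsChild.φ'_inv (h : ν.Ok) (C : ν.IsChild ν' y u V w kv k δ) :
    ui ν'.φ = psi (u * ui w) (N.pd y)
      (ui ν.φ + ui ν.φ * ui ν.φ * (al ν.EL u (ui V) * ν.ρ y)) := by
  have h1 := (φ_inv (φ := (ν.φ : N.A)) (φi := ui ν.φ) (ρ := ν.ρ y) N.sg h.φ_s
    ν.φ.mul_inv ((ND.br h).sal (C.eu h))).1
  have h2 := congrArg (psi (u * ui w) (N.pd y)) h1
  rw [C.el.mul, psi_one C.el.od, ← C.φ'] at h2
  calc ui ν'.φ = ui ν'.φ * ((ν'.φ : N.A) * _) := by rw [h2, mul_one]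
    _ = _ := by rw [← mul_assoc, Units.inv_mul, one_mul]

/-- The child of a node is a node. -/
theorem ND.IsChild.ok (h : ν.Ok) (C : ν.IsChild ν' y u V w kv k δ) : ν'.Ok := by
  have Bc := (C.chd h).br
  have hx := N.x_lv ν'.L
  have hDW : ν.Δ ((ν.Q : N.A) ^ k) = 0 := by
    have h1 : ν.ΔL (ν.Q : N.A) = 0 := h.ΔQ
    have h4 : ∀ j : ℕ, ν.ΔL ((ν.Q : N.A) ^ j) = 0 := by
      intro j
      induction j with
      | zero => rw [pow_zero]; exact (ND.br h).Del_od.one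
      | succ j ih => rw [pow_succ, (ND.br h).Del_od.mul, ih, h1, zero_mul, mul_zero, add_zero]
    exact h4 k
  have hWL : (ν.Q : N.A) ∈ N.LvS ν.L := h.Q_lv
  refine ⟨C.P'_s h, C.φ'_s h, fun j hj => C.ρ'_s h hj, ?_, ?_, ?_, ?_, ?_, ?_, ?_, ?_, ?_, ?_,
    ?_, ?_, ?_, ?_, ?_⟩
  · rw [C.Q', map_pow, psi_s C.el.od C.el.sv, h.Q_s]
  · rw [C.P']; exact C.psi_d h.P_d
  · rw [C.φ']
    refine C.psi_d (sub_mem h.φ_d ?_)
    have := N.Hd_mul _ _ _ _ (C.al_d h) (h.ρ_d y C.y_mem)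
    have e1 : xd y - e + (e - xd y) = 0 := by abel
    rwa [e1] at this
  · intro j hj
    rw [C.ρ' j hj]
    refine C.psi_d (sub_mem (h.ρ_d j (C.sub hj)) ?_)
    have := N.Hd_mul _ _ _ _ (C.ka_d h (C.sub hj)) (h.ρ_d y C.y_mem)
    have e1 : xd y - xd j + (e - xd y) = e - xd j := by abel
    rwa [e1] at this
  · rw [C.Q', C.q', C.psi_pow]
    exact C.psi_d (NR.Hd_pow h.Q_d k)
  · rw [C.Q', C.psi_pow]
    obtain ⟨i, hi⟩ := Nat.exists_eq_add_of_le C.k_le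
    have e1 : (ν.Q : N.A) ^ k = (ν.Q : N.A) ^ (kv + 1) * (ν.Q : N.A) ^ (i + 1) := by
      rw [hi, ← pow_add]; congr 1; omega
    rw [e1]
    refine C.psiT h N.mul_I (fun a ha => N.pd_I y a ha) le_rfl ?_
    rw [pow_succ]
    exact N.mul_I _ (N.R.pow_mem h.Q_ev.R i) _ h.Q_I
  · rw [C.Q', C.psi_pow]
    exact (C.chd h).p_mem (pow_mem hWL k)
  · rw [C.P']; exact C.psi_fn h h.P_fn
  · rw [C.φ']
    exact C.psi_fn h (sub_mem (h.mem_zz.2 h.φ_fn)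
      (mul_mem (C.al_zz h) (h.mem_zz.2 (h.ρ_fn y C.y_mem))))
  · show ν'.Fn (ui ν'.φ)
    rw [C.φ'_inv h]
    exact C.psi_fn h (add_mem (h.mem_zz.2 h.φ_fn') (mul_mem
      (mul_mem (h.mem_zz.2 h.φ_fn') (h.mem_zz.2 h.φ_fn'))
      (mul_mem (C.al_zz h) (h.mem_zz.2 (h.ρ_fn y C.y_mem)))))
  · intro j hj
    rw [C.ρ' j hj]
    exact C.psi_fn h (sub_mem (h.mem_zz.2 (h.ρ_fn j (C.sub hj)))
      (mul_mem (C.ka_zz h (C.sub hj)) (h.mem_zz.2 (h.ρ_fn y C.y_mem))))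
  · have h1 := Bc.DD _ hx
    rw [ND.ΔL_apply, ND.ΔL_apply, ND.Δ_x] at h1
    exact h1
  · have h1 := Bc.DE _ hx
    rw [ND.ΔL_apply, ND.ΔL_apply, ND.EL_apply, ND.EL_apply, ND.Δ_x, ND.E_x] at h1
    exact h1
  · intro j hj
    have h1 := Bc.Dr j hj _ hx
    rw [ND.ΔL_apply, ND.ΔL_apply, ND.rL_apply, ND.rL_apply, ND.Δ_x, ND.r_x] at h1
    exact h1
  · rw [C.Q', C.psi_pow, ← ND.ΔL_apply, (C.chd h).pDel (pow_mem hWL k), ND.ΔL_apply, hDW,
      map_zero]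

/-- Existence of the child. -/
theorem ND.exists_isChild (h : ν.Ok) (y_mem : y ∈ ν.L) (u_fn : ν.Fn u) (u_s : N.s u = -u)
    (u_Δ : ν.Δ u = 0) (u_d : u ∈ N.Hd δ) (V_eq : (V : N.A) = ν.r y u)
    (Vi_fn : ν.Fn (ui V)) :
    ∃ (ν' : ND N) (w : N.Aˣ) (kv k : ℕ), ν.IsChild ν' y u V w kv k δ := by
  -- the unit `w = ∂_y u = V - n`
  set n : N.A := ν.ρ y * N.dx u with hn
  have hVs : N.s (V : N.A) = V := by
    rw [V_eq, ← ND.rL_apply, (ND.rL_od (h.ρ_s y y_mem)).sg, u_s, map_neg, neg_neg]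
  have hVis : N.s (ui V) = ui V := N.sg.inv_even hVs V.mul_inv
  have hVw : N.pd y u = (V : N.A) - n := by
    rw [V_eq]; show N.pd y u = N.pd y u + ν.ρ y * N.dx u - n; rw [hn]; abel
  have hnn : ∀ a : N.A, n * (a * n) = 0 := by
    intro a
    rw [hn]
    have : ν.ρ y * N.dx u * (a * (ν.ρ y * N.dx u)) =
        (ν.ρ y * (N.dx u * a) * ν.ρ y) * N.dx u := by noncomm_ring
    rw [this, N.sg.odd_mul_mul (h.ρ_s y y_mem), zero_mul]
  have hw1 : N.pd y u * (ui V + ui V * n * ui V) = 1 := by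
    rw [hVw]
    have e1 : ((V : N.A) - n) * (ui V + ui V * n * ui V) =
        (V : N.A) * ui V + ((V : N.A) * ui V) * n * ui V - n * ui V -
          (n * (ui V * n)) * ui V := by noncomm_ring
    rw [e1, Units.mul_inv, hnn, one_mul, zero_mul]
    abel
  have hw2 : (ui V + ui V * n * ui V) * N.pd y u = 1 := by
    rw [hVw]
    have e1 : (ui V + ui V * n * ui V) * ((V : N.A) - n) =
        ui V * V + ui V * n * (ui V * V) - ui V * n - ui V * (n * (ui V * n)) := by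
      noncomm_ring
    rw [e1, Units.inv_mul, hnn, mul_one, mul_zero]
    abel
  obtain ⟨w, hw', hwi⟩ : ∃ w : N.Aˣ, (w : N.A) = N.pd y u ∧
      ui w = ui V + ui V * n * ui V := ⟨⟨N.pd y u, _, hw1, hw2⟩, rfl, rfl⟩
  have hel : El N.s (N.pd y) u (ui w) :=
    ⟨N.sg, N.pd_od y, N.pd_self y, u_s, by rw [← hw']; exact w.mul_inv⟩
  have hal : N.s (al ν.EL u (ui V)) = -al ν.EL u (ui V) := by
    rw [al, map_mul, hVis, (ND.EL_ed h.φ_s).sg, u_s, map_neg, neg_mul]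
  have hφ := φ_inv (φ := (ν.φ : N.A)) (φi := ui ν.φ) (α := al ν.EL u (ui V)) (ρ := ν.ρ y)
    N.sg h.φ_s ν.φ.mul_inv hal
  have hpow : ∀ (a : N.A) (j : ℕ), psi (u * ui w) (N.pd y) a ^ j =
      psi (u * ui w) (N.pd y) (a ^ j) := by
    intro a j
    induction j with
    | zero => rw [pow_zero, pow_zero, psi_one hel.od]
    | succ j ih => rw [pow_succ, ih, pow_succ, hel.mul]
  have hv : ν.Fn (u * ui w) := by
    have h1 : u * ui w ∈ N.ZZ ν.L h.Q_ev := by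
      have hV' : ui V ∈ N.ZZ ν.L h.Q_ev := Vi_fn
      have hu' : u ∈ N.ZZ ν.L h.Q_ev := u_fn
      have hn' : n ∈ N.ZZ ν.L h.Q_ev := mul_mem (h.mem_zz.2 (h.ρ_fn y y_mem)) (NR.ZZ_dx hu')
      rw [hwi]
      exact mul_mem hu' (add_mem hV' (mul_mem (mul_mem hV' hn') hV'))
    exact h1
  obtain ⟨-, kv, hkv⟩ := hv
  refine ⟨{ L := ν.L.erase y
            P := psi (u * ui w) (N.pd y) ν.P
            φ := ⟨psi (u * ui w) (N.pd y) ((ν.φ : N.A) - al ν.EL u (ui V) * ν.ρ y),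
              psi (u * ui w) (N.pd y)
                (ui ν.φ + ui ν.φ * ui ν.φ * (al ν.EL u (ui V) * ν.ρ y)),
              by rw [← hel.mul, hφ.1, psi_one hel.od], by rw [← hel.mul, hφ.2, psi_one hel.od]⟩
            ρ := fun j => psi (u * ui w) (N.pd y) (ν.ρ j - ka ν.rL u (ui V) j * ν.ρ y)
            Q := ⟨psi (u * ui w) (N.pd y) (ν.Q : N.A) ^ (kv + 2),
              psi (u * ui w) (N.pd y) (((ν.Q ^ (kv + 2) : N.Aˣ)⁻¹ : N.Aˣ) : N.A),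
              by
                rw [hpow, ← hel.mul, ← Units.val_pow_eq_pow_val,
                  Units.mul_inv, psi_one hel.od],
              by
                rw [hpow, ← hel.mul, ← Units.val_pow_eq_pow_val,
                  Units.inv_mul, psi_one hel.od]⟩
            q := (kv + 2) • ν.q }, w, kv, kv + 2, ?_⟩
  exact ⟨y_mem, u_fn, u_s, u_Δ, u_d, V_eq, Vi_fn, hw', hkv, le_rfl, rfl, rfl, rfl,
    fun j _ => rfl, rfl, rfl⟩

/-- Back-substitution. -/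
theorem ND.IsChild.back (h : ν.Ok) (C : ν.IsChild ν' y u V w kv k δ) {η : N.A} (hη : ν'.Fn η)
    (hd : η ∈ N.Hd (-d)) (h1 : ν'.Δ η = 1) :
    ∃ θ : N.A, ν.Fn θ ∧ θ ∈ N.Hd (-d) ∧ ν.Δ θ = 1 := by
  have hηL : η ∈ N.LvS ν.L := ((C.lv_iff η).1 hη.1).1
  have hW := h.Q_ev
  -- the poles of `η`
  have hηW : η ∈ N.ZZ ν.L h.Q_ev := by
    refine ⟨hηL, ?_⟩
    obtain ⟨c, hc⟩ := hη.2
    have hc1 : psi (u * ui w) (N.pd y) ((ν.Q : N.A) ^ (k * (c + 1))) * η ∈ N.R := by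
      rw [← C.psi_pow, pow_mul, ← C.Q', pow_succ', mul_assoc]
      exact N.R.mul_mem (N.I_le _ (C.ok h).Q_I) hc
    set m := k * (c + 1) with hm
    have hm3 : kv + 1 ≤ m := by
      have := C.k_le
      nlinarith
    set X : N.A := (ν.Q : N.A) ^ m with hX
    have hXe : N.Ev X := hW.pow m
    -- `X = psi X + b`, `b = v * ∂_y X ∈ R`, `b * a * b = 0`
    set b : N.A := u * ui w * N.pd y X with hb
    have hXb : X = psi (u * ui w) (N.pd y) X + b := by rw [psi_apply]; abel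
    have hbR : b ∈ N.R := by
      have h2 := C.psiW h (j := m) hm3 (a := 1) N.R.one_mem
      rw [mul_one] at h2
      have h3 : b = X - psi (u * ui w) (N.pd y) X := by rw [psi_apply]; abel
      rw [h3]
      exact N.R.sub_mem hXe.R h2
    have hbb : b * (b * η) = 0 := by
      rw [hb]
      have e1 : u * ui w * N.pd y X * (u * ui w * N.pd y X * η) =
          (u * (ui w * N.pd y X) * u) * (ui w * N.pd y X * η) := by noncomm_ring
      rw [e1, N.sg.odd_mul_mul C.u_s, zero_mul]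
    refine ⟨m + m, ?_⟩
    have e1 : (ν.Q : N.A) ^ (m + m) * η =
        X * (psi (u * ui w) (N.pd y) X * η) +
          b * (psi (u * ui w) (N.pd y) X * η) := by
      rw [pow_add, mul_assoc, ← hX]
      nth_rewrite 2 [hXb]
      rw [add_mul, mul_add]
      congr 1
      have h4 : X * (b * η) = b * (X * η) := by
        rw [← mul_assoc, hXe.comm b, mul_assoc]
      rw [h4]
      nth_rewrite 1 [hXb]
      rw [add_mul, mul_add, hbb, add_zero]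
    rw [e1]
    exact N.R.add_mem (N.R.mul_mem hXe.R hc1) (N.R.mul_mem hbR hc1)
  have hΔη : ν.Δ η ∈ N.ZZ ν.L h.Q_ev :=
    add_mem (NR.ZZ_D hηW) (mul_mem (h.mem_zz.2 h.P_fn) (NR.ZZ_dx hηW))
  have hv : u * ui w ∈ N.ZZ ν.L h.Q_ev := ⟨mul_mem C.u_fn.1 C.wi_lv, kv, C.v_R⟩
  refine ⟨η * (1 - u * (ui w * N.pd y (ν.Δ η))), ?_, ?_, ?_⟩
  · rw [← mul_assoc u]
    exact mul_mem hηW (sub_mem (one_mem _) (mul_mem hv (NR.ZZ_pd hΔη y)))
  · have h2 : ν.Δ η ∈ N.Hd 0 := by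
      refine add_mem ?_ ?_
      · have := N.Hd_D _ _ hd
        have e1 : -d + d = 0 := by abel
        rwa [e1] at this
      · have := N.Hd_mul _ _ _ _ h.P_d (N.Hd_dx _ _ hd)
        have e1 : e + d + (-d - e) = 0 := by abel
        rwa [e1] at this
    have hwd : (w : N.A) ∈ N.Hd (δ - xd y) := by rw [C.w_eq]; exact N.Hd_pd _ _ _ C.u_d
    have h3 := N.Hd_mul _ _ _ _ C.u_d (N.Hd_mul _ _ _ _ (N.Hd_inv _ w hwd) (N.Hd_pd _ y _ h2))
    have e2 : δ + (-(δ - xd y) + (0 - xd y)) = 0 := by abel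
    rw [e2] at h3
    have h4 := N.Hd_mul _ _ _ _ hd (sub_mem N.Hd_one h3)
    rwa [add_zero] at h4
  · exact (C.chd h).back hη.1 h1 (ND.ΔΔ h.P_s h.ΔP)

/-- The odd part. -/
theorem ND.odd_part (h : ν.Ok) {θ : N.A} (hf : ν.Fn θ) (hd : θ ∈ N.Hd (-d)) (h1 : ν.Δ θ = 1) :
    ∃ η : N.A, ν.Fn η ∧ η ∈ N.Hd (-d) ∧ N.s η = -η ∧ ν.Δ η = 1 := by
  have hf' : θ ∈ N.ZZ ν.L h.Q_ev := hf
  refine ⟨(2 : ℚ)⁻¹ • (θ - N.s θ), ?_, ?_, ?_, ?_⟩
  · have : (2 : ℚ)⁻¹ • (θ - N.s θ) ∈ N.ZZ ν.L h.Q_ev :=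
      Subalgebra.smul_mem _ (sub_mem hf' (NR.ZZ_s hf')) _
    exact this
  · exact Submodule.smul_mem _ _ (sub_mem hd (N.Hd_s _ _ hd))
  · rw [map_smul, map_sub, N.s_s, ← smul_neg, neg_sub]
  · have h2 : ν.ΔL (N.s θ) = -1 := by
      have := (ND.ΔL_od h.P_s).sg θ
      rw [ND.ΔL_apply, h1, map_one] at this
      rw [this, neg_neg]
    rw [← ND.ΔL_apply, map_smul, map_sub, h2, ND.ΔL_apply, h1, sub_neg_eq_add,
      ← two_smul ℚ (1 : N.A), smul_smul]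
    norm_num

end

end AnOC
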