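import Pool.Agent.Helper57.G2.Chi2
import Pool.Agent.Helper23.OC.A03

/-!
# Project OC: the filtration of the child; images under morphisms of node rings
-/

set_option autoImplicit false

namespace AnOC
open AnWL.Nd

section
variable {M Γ : Type} [AddCommGroup Γ] {xd : M → Γ} {e d : Γ} {N : NR M Γ xd e d}
  {ν ν' : ND N}

/-- A pre-filtration in the language of `Fil.lean`. -/
theorem ND.PFil.fl (h : ν.Ok) {F : ℕ → Γ → Submodule ℚ N.A} (hF : ν.PFil F) :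
    ∃ K, Fl N.s ν.ΔL ν.EL (ν.L : Set M) ν.rL d e xd N.Hd (N.ZZ ν.L h.Q_ev) F K := by
  obtain ⟨K, hK⟩ := hF.ex
  exact ⟨K,
    { anti := fun {k γ a} ha => hF.mono k γ ha
      one_mem := hF.one
      mul := fun {i j γ δ a b} ha hb => hF.mul i j γ δ a ha b hb
      s_mem := fun {k γ a} ha => hF.s_mem k γ a ha
      H_mem := fun {k γ a} ha => hF.hd k γ ha
      D_eq := fun {k γ a} ha => hF.cl k γ a ha
      Z_mem := fun {k γ a} ha => hF.fn k γ a ha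
      r_mem := fun {k γ a} t ht ha => hF.r_mem t ht k γ a ha
      E_mem := fun {k γ a} ha => hF.E_mem k γ a ha
      ex := fun {γ a} ha => by
        obtain ⟨z, h1, h2, h3⟩ := hK γ a ha
        exact ⟨z, h1, h2, h3⟩ }⟩

/-- Conversely. -/
theorem ND.PFil.of_fl {F : ℕ → Γ → Submodule ℚ N.A} {K : ℕ} {Z : Subalgebra ℚ N.A}
    (hF : Fl N.s ν.ΔL ν.EL (ν.L : Set M) ν.rL d e xd N.Hd Z F K)
    (hZ : ∀ a ∈ Z, ν.Fn a)
    (hg : ∀ i ∈ ν.L, ∀ j ∈ ν.L, ν.g i j ∈ F 0 (e - xd i - xd j))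
    (hh : ∀ j ∈ ν.L, ν.h j ∈ F 1 (-xd j)) : ν.PFil F where
  hd _ _ _ ha := hF.H_mem ha
  fn _ _ a ha := hZ a (hF.Z_mem ha)
  cl _ _ _ ha := hF.D_eq ha
  mono _ _ _ ha := hF.anti ha
  mul _ _ _ _ _ ha _ hb := hF.mul ha hb
  s_mem _ _ _ ha := hF.s_mem ha
  r_mem j hj _ _ _ ha := hF.r_mem j hj ha
  E_mem _ _ _ ha := hF.E_mem ha
  one := hF.one_mem
  g_mem := hg
  h_mem := hh
  ex := ⟨K, fun g a ha => by
    obtain ⟨z, h1, h2, h3⟩ := hF.ex ha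
    exact ⟨z, hZ z h1, h2, h3⟩⟩

variable [DecidableEq M] {y : M} {u : N.A} {V w : N.Aˣ} {kv k : ℕ} {δ : Γ}

/-- The filtration of the child. -/
theorem ND.IsChild.fil (h : ν.Ok) (C : ν.IsChild ν' y u V w kv k δ)
    {F : ℕ → Γ → Submodule ℚ N.A} (hF : ν.Fil F)
    (V1 : ui V ∈ F 0 (-(δ - xd y)))
    (hr : ∀ j ∈ ν.L, ν.r j u ∈ F 0 (δ - xd j)) (hE : ν.E u ∈ F 1 (δ - e)) :
    ν'.Fil (fun k γ => (F k γ).map (psi (u * ui w) (N.pd y))) := by
  obtain ⟨K, hK⟩ := hF.toPFil.fl h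
  have hka : ∀ t ∈ ν.L, ka ν.rL u (ui V) t ∈ F 0 (xd y - xd t) := by
    intro t ht
    have h1 := hK.mul (hr t ht) V1
    have e1 : δ - xd t + -(δ - xd y) = xd y - xd t := by abel
    rw [e1] at h1
    exact h1
  have hal : al ν.EL u (ui V) ∈ F 1 (xd y - e) := by
    have h1 := hK.mul hE V1
    have e1 : δ - e + -(δ - xd y) = xd y - e := by abel
    rw [e1] at h1
    exact h1
  have hc := C.chd h
  have hpZ : ∀ a ∈ N.ZZ ν.L h.Q_ev, psi (u * ui w) (N.pd y) a ∈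
      N.ZZ ν'.L (C.ok h).Q_ev := fun a ha => C.psi_fn h ha
  have hfl := hc.fl hK (fun a ha => ha.1) hpZ (fun γ a ha => C.psi_d ha) hka
    (hK.anti hal)
  have hpow : ∀ j : ℕ, (ν.Q : N.A) ^ j ∈ F 0 (j • ν.q) := by
    intro j
    have := hK.pow hF.Q_mem j
    rwa [Nat.mul_zero] at this
  have hpow' : ∀ j : ℕ, ui ν.Q ^ j ∈ F 0 (-(j • ν.q)) := by
    intro j
    have := hK.pow hF.Q_mem' j
    rwa [Nat.mul_zero, smul_neg] at this
  refine ⟨ND.PFil.of_fl hfl (fun a ha => ha) ?_ ?_, ?_, ?_⟩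
  · intro i hi j hj
    rw [C.g_eq h hi hj]
    exact ⟨_, hc.gg_mem hK hF.g_mem hka (C.sub hi) (C.sub hj), rfl⟩
  · intro j hj
    rw [C.h_eq h hj]
    exact ⟨_, hc.hh_mem hK hF.g_mem hF.h_mem hka hal (C.sub hj), rfl⟩
  · rw [C.q', C.Q', C.psi_pow]
    exact ⟨_, hpow k, rfl⟩
  · refine ⟨ui ν.Q ^ k, by rw [C.q']; exact hpow' k, ?_⟩
    have h1 : (ν'.Q : N.A) * psi (u * ui w) (N.pd y) (ui ν.Q ^ k) = 1 := by
      rw [C.Q', C.psi_pow, ← C.el.mul]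
      have h2 : (ν.Q : N.A) ^ k * ui ν.Q ^ k = 1 := by
        rw [← Units.val_pow_eq_pow_val, ← Units.val_pow_eq_pow_val, ← Units.val_mul,
          inv_pow, mul_inv_cancel, Units.val_one]
      rw [h2, psi_one C.el.od]
    calc psi (u * ui w) (N.pd y) (ui ν.Q ^ k)
        = ui ν'.Q * ((ν'.Q : N.A) * psi (u * ui w) (N.pd y) (ui ν.Q ^ k)) := by
          rw [← mul_assoc, Units.inv_mul, one_mul]
      _ = ui ν'.Q := by rw [h1, mul_one]

end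

section map
variable {M Γ Γ' : Type} [AddCommGroup Γ] [AddCommGroup Γ']
  {xd : M → Γ} {e d : Γ} {xd' : M → Γ'} {e' d' : Γ'}
  {N : NR M Γ xd e d} {N' : NR M Γ' xd' e' d'} {ν ν' : ND N}
  [DecidableEq M] {y : M} {u : N.A} {V w : N.Aˣ} {kv k : ℕ} {δ : Γ}

theorem map_ui (f : NMor N N') (V : N.Aˣ) :
    ui (Units.map (f.f : N.A →* N'.A) V) = f.f (ui V) := rfl

theorem map_psi (f : NMor N N') (v a : N.A) (y : M) :
    f.f (psi v (N.pd y) a) = psi (f.f v) (N'.pd y) (f.f a) := by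
  rw [psi_apply, psi_apply, map_sub, map_mul, f.pd]

/-- The image of a child. -/
theorem ND.IsChild.map (C : ν.IsChild ν' y u V w kv k δ) (f : NMor N N') :
    (ν.map f).IsChild (ν'.map f) y (f.f u) (Units.map (f.f : N.A →* N'.A) V)
      (Units.map (f.f : N.A →* N'.A) w) kv k (f.γ δ) := by
  have hv : f.f u * ui (Units.map (f.f : N.A →* N'.A) w) = f.f (u * ui w) := by
    rw [map_ui, map_mul]
  refine ⟨C.y_mem, map_Fn f C.u_fn, ?_, ?_, f.Hd _ _ C.u_d, ?_, ?_, ?_, ?_, C.k_le, C.L', ?_,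
    ?_, ?_, ?_, ?_⟩
  · rw [f.s, C.u_s, map_neg]
  · rw [map_Δ, C.u_Δ, map_zero]
  · rw [map_r, ← C.V_eq]; rfl
  · exact map_Fn f C.Vi_fn
  · rw [f.pd, ← C.w_eq]; rfl
  · rw [hv]
    have h1 : ((ν.map f).Q : N'.A) ^ kv * f.f (u * ui w) = f.f ((ν.Q : N.A) ^ kv * (u * ui w)) := by
      rw [map_mul f.f (_ ^ _) _, map_pow]; rfl
    rw [h1]
    exact f.R _ C.v_R
  · rw [hv]
    show f.f ν'.P = _
    rw [C.P', map_psi]; rfl
  · rw [hv]
    show f.f (ν'.φ : N.A) = _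
    have h1 : f.f (al ν.EL u (ui V)) =
        al (ν.map f).EL (f.f u) (ui (Units.map (f.f : N.A →* N'.A) V)) := by
      show f.f (ν.E u * ui V) = (ν.map f).E (f.f u) * ui (Units.map (f.f : N.A →* N'.A) V)
      rw [map_mul, map_E, map_ui]
    rw [C.φ', map_psi, ← h1, map_sub, map_mul f.f _ (ν.ρ y)]
    rfl
  · intro j hj
    rw [hv]
    show f.f (ν'.ρ j) = _
    have h1 : f.f (ka ν.rL u (ui V) j) =
        ka (ν.map f).rL (f.f u) (ui (Units.map (f.f : N.A →* N'.A) V)) j := by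
      show f.f (ν.r j u * ui V) = (ν.map f).r j (f.f u) * ui (Units.map (f.f : N.A →* N'.A) V)
      rw [map_mul, map_r, map_ui]
    rw [C.ρ' j hj, map_psi, ← h1, map_sub, map_mul f.f _ (ν.ρ y)]
    rfl
  · rw [hv]
    show f.f (ν'.Q : N.A) = _
    rw [C.Q', map_pow, map_psi]; rfl
  · show f.γ ν'.q = k • f.γ ν.q
    rw [C.q', map_nsmul]

end map

end AnOC
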