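import Pool.Agent.Helper57.G2.Brk

/-!
# Project G2 (MP_5f0082_gt): graded multiplicative filtrations

`Fl`: a filtration `F k γ` by closed elements, multiplicative, raised by `r t` and `E`, with primitives in `Z` at the
order `N`. `Fl.adj`: adjunction of one homogeneous closed element `w` of weight `κ` (`κ = 0`, or a power of `w`
has a primitive).
-/

set_option autoImplicit false

namespace AnWL.Nd

variable {A : Type} [Ring A] [Algebra ℚ A] {M Γ : Type} [AddCommGroup Γ]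

/-- Graded multiplicative filtrations by closed elements. -/
structure Fl (s : A →ₐ[ℚ] A) (Del E : A →ₗ[ℚ] A) (L : Set M) (r : M → A →ₗ[ℚ] A)
    (one xx : Γ) (xd : M → Γ) (H : Γ → Submodule ℚ A) (Z : Subalgebra ℚ A)
    (F : ℕ → Γ → Submodule ℚ A) (N : ℕ) : Prop where
  anti : ∀ {k : ℕ} {γ : Γ} {a : A}, a ∈ F (k + 1) γ → a ∈ F k γ
  one_mem : (1 : A) ∈ F 0 0
  mul : ∀ {i j : ℕ} {γ δ : Γ} {a b : A}, a ∈ F i γ → b ∈ F j δ → a * b ∈ F (i + j) (γ + δ)
  s_mem : ∀ {k : ℕ} {γ : Γ} {a : A}, a ∈ F k γ → s a ∈ F k γ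
  H_mem : ∀ {k : ℕ} {γ : Γ} {a : A}, a ∈ F k γ → a ∈ H γ
  D_eq : ∀ {k : ℕ} {γ : Γ} {a : A}, a ∈ F k γ → Del a = 0
  Z_mem : ∀ {k : ℕ} {γ : Γ} {a : A}, a ∈ F k γ → a ∈ Z
  r_mem : ∀ {k : ℕ} {γ : Γ} {a : A}, ∀ t ∈ L, a ∈ F k γ → r t a ∈ F (k + 1) (γ - xd t)
  E_mem : ∀ {k : ℕ} {γ : Γ} {a : A}, a ∈ F k γ → E a ∈ F (k + 1) (γ - xx)
  ex : ∀ {γ : Γ} {a : A}, a ∈ F N γ → ∃ z ∈ Z, z ∈ H (γ - one) ∧ Del z = a

section
variable {s : A →ₐ[ℚ] A} {Del E : A →ₗ[ℚ] A} {L : Set M} {r : M → A →ₗ[ℚ] A}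
  {one xx : Γ} {xd : M → Γ} {H : Γ → Submodule ℚ A} {Z : Subalgebra ℚ A}
  {F : ℕ → Γ → Submodule ℚ A} {N : ℕ}

theorem Fl.anti' (h : Fl s Del E L r one xx xd H Z F N) {i j : ℕ} (hij : i ≤ j) {γ : Γ} {a : A}
    (ha : a ∈ F j γ) : a ∈ F i γ := by
  induction j, hij using Nat.le_induction with
  | base => exact ha
  | succ j _ ih => exact ih (h.anti ha)

theorem Fl.pow (h : Fl s Del E L r one xx xd H Z F N) {i : ℕ} {γ : Γ} {a : A} (ha : a ∈ F i γ)
    (j : ℕ) : a ^ j ∈ F (j * i) (j • γ) := by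
  induction j with
  | zero => rw [pow_zero, zero_mul, zero_smul]; exact h.one_mem
  | succ j ih =>
    rw [pow_succ, Nat.succ_mul, succ_nsmul]
    exact h.mul ih ha

/-- The filtration with the primitives in a larger subalgebra. -/
theorem Fl.mono (h : Fl s Del E L r one xx xd H Z F N) {Z' : Subalgebra ℚ A} (hZ : Z ≤ Z') :
    Fl s Del E L r one xx xd H Z' F N where
  anti := h.anti
  one_mem := h.one_mem
  mul := h.mul
  s_mem := h.s_mem
  H_mem := h.H_mem
  D_eq := h.D_eq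
  Z_mem ha := hZ (h.Z_mem ha)
  r_mem := h.r_mem
  E_mem := h.E_mem
  ex ha := by
    obtain ⟨z, h1, h2, h3⟩ := h.ex ha
    exact ⟨z, hZ h1, h2, h3⟩

/-- Adjunction of an element `w` of degree `ω` and weight `κ`. -/
def adj (F : ℕ → Γ → Submodule ℚ A) (w : A) (ω : Γ) (κ : ℕ) : ℕ → Γ → Submodule ℚ A :=
  fun k γ => Submodule.span ℚ {x | ∃ (j i : ℕ) (δ : Γ) (f : A), f ∈ F i δ ∧ k ≤ i + j * κ ∧
    δ + j • ω = γ ∧ x = w ^ j * f}

theorem adj_gen {w : A} {ω : Γ} {κ : ℕ} {j i k : ℕ} {δ γ : Γ} {f : A} (hf : f ∈ F i δ)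
    (hk : k ≤ i + j * κ) (hγ : δ + j • ω = γ) : w ^ j * f ∈ adj F w ω κ k γ :=
  Submodule.subset_span ⟨j, i, δ, f, hf, hk, hγ, rfl⟩

theorem adj_base {w : A} {ω : Γ} {κ : ℕ} {k : ℕ} {γ : Γ} {f : A} (hf : f ∈ F k γ) :
    f ∈ adj F w ω κ k γ := by
  have := adj_gen (w := w) (ω := ω) (κ := κ) (j := 0) (k := k) hf (by omega)
    (show γ + 0 • ω = γ by rw [zero_smul, add_zero])
  rwa [pow_zero, one_mul] at this

theorem adj_self (h : Fl s Del E L r one xx xd H Z F N) {w : A} {ω : Γ} {κ : ℕ} :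
    w ∈ adj F w ω κ κ ω := by
  have := adj_gen (w := w) (ω := ω) (κ := κ) (j := 1) (k := κ) h.one_mem (by omega)
    (show (0 : Γ) + 1 • ω = ω by rw [one_smul, zero_add])
  rwa [pow_one, mul_one] at this

theorem adj_ind {w : A} {ω : Γ} {κ : ℕ} {k : ℕ} {γ : Γ} {p : A → Prop}
    (hg : ∀ (j i : ℕ) (δ : Γ) (f : A), f ∈ F i δ → k ≤ i + j * κ → δ + j • ω = γ → p (w ^ j * f))
    (h0 : p 0) (ha : ∀ a b, p a → p b → p (a + b)) (hs : ∀ (c : ℚ) a, p a → p (c • a))
    {a : A} (h : a ∈ adj F w ω κ k γ) : p a := by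
  unfold adj at h
  induction h using Submodule.span_induction with
  | mem x hx =>
    obtain ⟨j, i, δ, f, h1, h2, h3, rfl⟩ := hx
    exact hg j i δ f h1 h2 h3
  | zero => exact h0
  | add x y _ _ hx hy => exact ha _ _ hx hy
  | smul c x _ hx => exact hs c _ hx

/-- `f w^j = w^j f'`. -/
theorem adj_comm (h : Fl s Del E L r one xx xd H Z F N) (hs : Sg s) {w : A}
    (hw : s w = w ∨ s w = -w) (j : ℕ) {i : ℕ} {δ : Γ} {f : A} (hf : f ∈ F i δ) :
    ∃ f' ∈ F i δ, f * w ^ j = w ^ j * f' := by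
  induction j with
  | zero => exact ⟨f, hf, by rw [pow_zero, mul_one, one_mul]⟩
  | succ j ih =>
    obtain ⟨f', h1, h2⟩ := ih
    rcases hw with hw | hw
    · refine ⟨f', h1, ?_⟩
      rw [pow_succ, ← mul_assoc, h2, mul_assoc, mul_assoc, hs.even_comm w f' hw]
    · refine ⟨s f', h.s_mem h1, ?_⟩
      rw [pow_succ, ← mul_assoc, h2, mul_assoc, mul_assoc, hs.mul_odd hw f']

theorem adj_mul (h : Fl s Del E L r one xx xd H Z F N) (hs : Sg s) {w : A} {ω : Γ} {κ : ℕ}
    (hw : s w = w ∨ s w = -w) {k l : ℕ} {γ δ : Γ} {a b : A} (ha : a ∈ adj F w ω κ k γ)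
    (hb : b ∈ adj F w ω κ l δ) : a * b ∈ adj F w ω κ (k + l) (γ + δ) := by
  refine adj_ind (p := fun a => a * b ∈ adj F w ω κ (k + l) (γ + δ)) ?_ ?_ ?_ ?_ ha
  · intro j i δ₁ f hf h1 h2
    refine adj_ind (p := fun b => w ^ j * f * b ∈ adj F w ω κ (k + l) (γ + δ)) ?_ ?_ ?_ ?_ hb
    · intro j' i' δ₂ f' hf' h1' h2'
      obtain ⟨f'', h3, h4⟩ := adj_comm h hs hw j' hf
      have e : w ^ j * f * (w ^ j' * f') = w ^ (j + j') * (f'' * f') := by
        rw [mul_assoc, ← mul_assoc f, h4, mul_assoc, ← mul_assoc, ← pow_add]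
      rw [e]
      refine adj_gen (h.mul h3 hf') ?_ ?_
      · rw [add_mul]; omega
      · rw [← h2, ← h2', add_smul]; abel
    · rw [mul_zero]; exact zero_mem _
    · intro x y hx hy; rw [mul_add]; exact add_mem hx hy
    · intro c x hx; rw [mul_smul_comm]; exact Submodule.smul_mem _ _ hx
  · rw [zero_mul]; exact zero_mem _
  · intro x y hx hy; rw [add_mul]; exact add_mem hx hy
  · intro c x hx; rw [smul_mul_assoc]; exact Submodule.smul_mem _ _ hx

theorem adj_anti {w : A} {ω : Γ} {κ : ℕ} {k l : ℕ} (hkl : k ≤ l) {γ : Γ} {a : A}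
    (ha : a ∈ adj F w ω κ l γ) : a ∈ adj F w ω κ k γ := by
  refine adj_ind (p := fun a => a ∈ adj F w ω κ k γ) ?_ (zero_mem _)
    (fun _ _ hx hy => add_mem hx hy) (fun c _ hx => Submodule.smul_mem _ c hx) ha
  intro j i δ f hf h1 h2
  exact adj_gen hf (hkl.trans h1) h2

theorem adj_pow (h : Fl s Del E L r one xx xd H Z F N) (w : A) (ω : Γ) (κ j : ℕ) :
    w ^ j ∈ adj F w ω κ (j * κ) (j • ω) := by
  have := adj_gen (w := w) (ω := ω) (κ := κ) (j := j) (k := j * κ) h.one_mem (by omega)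
    (show (0 : Γ) + j • ω = j • ω by rw [zero_add])
  rwa [mul_one] at this

/-- Adjunction of a homogeneous closed element. -/
theorem Fl.adj (h : Fl s Del E L r one xx xd H Z F N) (hs : Sg s) (hDel : OD s Del)
    (hEd : ED s E) (hrd : ∀ t ∈ L, OD s (r t))
    (mul_H : ∀ {g h : Γ} {a b : A}, a ∈ H g → b ∈ H h → a * b ∈ H (g + h))
    (s_H : ∀ {g : Γ} {a : A}, a ∈ H g → s a ∈ H g)
    (s_Z : ∀ a ∈ Z, s a ∈ Z)
    {w : A} {ω : Γ} {κ c : ℕ} (hw : s w = w ∨ s w = -w) (wZ : w ∈ Z) (wH : w ∈ H ω)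
    (Dw : Del w = 0)
    (hr : ∀ t ∈ L, r t w ∈ adj F w ω κ (κ + 1) (ω - xd t))
    (hE : E w ∈ adj F w ω κ (κ + 1) (ω - xx))
    (hc : κ = 0 ∨ ∃ z ∈ Z, z ∈ H (c • ω - one) ∧ Del z = w ^ c) :
    Fl s Del E L r one xx xd H Z (adj F w ω κ) (N + c * κ) := by
  have powH : ∀ j : ℕ, w ^ j ∈ H (j • ω) := by
    intro j
    induction j with
    | zero => rw [pow_zero, zero_smul]; exact h.H_mem h.one_mem
    | succ j ih => rw [pow_succ, succ_nsmul]; exact mul_H ih wH
  have powZ : ∀ j : ℕ, w ^ j ∈ Z := fun j => Z.pow_mem wZ j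
  have Dpow : ∀ j : ℕ, Del (w ^ j) = 0 := by
    intro j
    induction j with
    | zero => rw [pow_zero]; exact hDel.one
    | succ j ih => rw [pow_succ, hDel.mul, ih, Dw, zero_mul, mul_zero, add_zero]
  have spow : ∀ j : ℕ, s (w ^ j) = w ^ j ∨ s (w ^ j) = -w ^ j := by
    intro j
    induction j with
    | zero => left; rw [pow_zero, map_one]
    | succ j ih =>
      rw [pow_succ, map_mul]
      rcases ih with ih | ih <;> rcases hw with hw | hw <;> rw [ih, hw] <;> simp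
  have hmulA : ∀ {k l : ℕ} {γ δ : Γ} {a b : A}, a ∈ Nd.adj F w ω κ k γ → b ∈ Nd.adj F w ω κ l δ →
      a * b ∈ Nd.adj F w ω κ (k + l) (γ + δ) := fun ha hb => adj_mul h hs hw ha hb
  have hsA : ∀ {k : ℕ} {γ : Γ} {a : A}, a ∈ Nd.adj F w ω κ k γ → s a ∈ Nd.adj F w ω κ k γ := by
    intro k γ a ha
    refine adj_ind (p := fun a => s a ∈ Nd.adj F w ω κ k γ) ?_ (by rw [map_zero]; exact zero_mem _)
      (fun _ _ hx hy => by rw [map_add]; exact add_mem hx hy)
      (fun c _ hx => by rw [map_smul]; exact Submodule.smul_mem _ c hx) ha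
    intro j i δ f hf h1 h2
    rw [map_mul]
    have h3 := adj_gen (w := w) (ω := ω) (κ := κ) (h.s_mem hf) h1 h2
    rcases spow j with e | e
    · rw [e]; exact h3
    · rw [e, neg_mul]; exact neg_mem h3
  have hrpow : ∀ t ∈ L, ∀ j : ℕ, r t (w ^ j) ∈ Nd.adj F w ω κ (j * κ + 1) (j • ω - xd t) := by
    intro t ht j
    induction j with
    | zero => rw [pow_zero, (hrd t ht).one]; exact zero_mem _
    | succ j ih =>
      rw [pow_succ, (hrd t ht).mul]
      refine add_mem ?_ ?_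
      · have := hmulA ih (adj_self (w := w) (ω := ω) (κ := κ) h)
        have e1 : j * κ + 1 + κ = (j + 1) * κ + 1 := by ring
        have e2 : j • ω - xd t + ω = (j + 1) • ω - xd t := by rw [succ_nsmul]; abel
        rwa [e1, e2] at this
      · have := hmulA (hsA (adj_pow h w ω κ j)) (hr t ht)
        have e1 : j * κ + (κ + 1) = (j + 1) * κ + 1 := by ring
        have e2 : j • ω + (ω - xd t) = (j + 1) • ω - xd t := by rw [succ_nsmul]; abel
        rwa [e1, e2] at this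
  have hEpow : ∀ j : ℕ, E (w ^ j) ∈ Nd.adj F w ω κ (j * κ + 1) (j • ω - xx) := by
    intro j
    induction j with
    | zero => rw [pow_zero, hEd.one]; exact zero_mem _
    | succ j ih =>
      rw [pow_succ, hEd.mul]
      refine add_mem ?_ ?_
      · have := hmulA ih (adj_self (w := w) (ω := ω) (κ := κ) h)
        have e1 : j * κ + 1 + κ = (j + 1) * κ + 1 := by ring
        have e2 : j • ω - xx + ω = (j + 1) • ω - xx := by rw [succ_nsmul]; abel
        rwa [e1, e2] at this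
      · have := hmulA (adj_pow h w ω κ j) hE
        have e1 : j * κ + (κ + 1) = (j + 1) * κ + 1 := by ring
        have e2 : j • ω + (ω - xx) = (j + 1) • ω - xx := by rw [succ_nsmul]; abel
        rwa [e1, e2] at this
  refine ⟨?_, ?_, hmulA, hsA, ?_, ?_, ?_, ?_, ?_, ?_⟩
  · intro k γ a ha
    exact adj_anti (Nat.le_succ k) ha
  · exact adj_base h.one_mem
  · intro k γ a ha
    refine adj_ind (p := fun a => a ∈ H γ) ?_ (zero_mem _)
      (fun _ _ hx hy => add_mem hx hy) (fun c _ hx => Submodule.smul_mem _ c hx) ha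
    intro j i δ f hf h1 h2
    have := mul_H (powH j) (h.H_mem hf)
    rwa [add_comm (j • ω) δ, h2] at this
  · intro k γ a ha
    refine adj_ind (p := fun a => Del a = 0) ?_ (map_zero _)
      (fun _ _ hx hy => by rw [map_add, hx, hy, add_zero])
      (fun c _ hx => by rw [map_smul, hx, smul_zero]) ha
    intro j i δ f hf h1 h2
    rw [hDel.mul, Dpow, h.D_eq hf, zero_mul, mul_zero, add_zero]
  · intro k γ a ha
    refine adj_ind (p := fun a => a ∈ Z) ?_ (zero_mem _)
      (fun _ _ hx hy => add_mem hx hy) (fun c _ hx => Z.smul_mem hx c) ha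
    intro j i δ f hf h1 h2
    exact Z.mul_mem (powZ j) (h.Z_mem hf)
  · intro k γ a t ht ha
    refine adj_ind (p := fun a => r t a ∈ Nd.adj F w ω κ (k + 1) (γ - xd t)) ?_
      (by rw [map_zero]; exact zero_mem _)
      (fun _ _ hx hy => by rw [map_add]; exact add_mem hx hy)
      (fun c _ hx => by rw [map_smul]; exact Submodule.smul_mem _ c hx) ha
    intro j i δ f hf h1 h2
    rw [(hrd t ht).mul]
    refine add_mem ?_ ?_
    · have := hmulA (hrpow t ht j) (adj_base (w := w) (ω := ω) (κ := κ) hf)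
      have e2 : j • ω - xd t + δ = γ - xd t := by rw [← h2]; abel
      rw [e2] at this
      exact adj_anti (by omega) this
    · have := hmulA (hsA (adj_pow h w ω κ j))
        (adj_base (w := w) (ω := ω) (κ := κ) (h.r_mem t ht hf))
      have e2 : j • ω + (δ - xd t) = γ - xd t := by rw [← h2]; abel
      rw [e2] at this
      exact adj_anti (by omega) this
  · intro k γ a ha
    refine adj_ind (p := fun a => E a ∈ Nd.adj F w ω κ (k + 1) (γ - xx)) ?_
      (by rw [map_zero]; exact zero_mem _)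
      (fun _ _ hx hy => by rw [map_add]; exact add_mem hx hy)
      (fun c _ hx => by rw [map_smul]; exact Submodule.smul_mem _ c hx) ha
    intro j i δ f hf h1 h2
    rw [hEd.mul]
    refine add_mem ?_ ?_
    · have := hmulA (hEpow j) (adj_base (w := w) (ω := ω) (κ := κ) hf)
      have e2 : j • ω - xx + δ = γ - xx := by rw [← h2]; abel
      rw [e2] at this
      exact adj_anti (by omega) this
    · have := hmulA (adj_pow h w ω κ j)
        (adj_base (w := w) (ω := ω) (κ := κ) (h.E_mem hf))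
      have e2 : j • ω + (δ - xx) = γ - xx := by rw [← h2]; abel
      rw [e2] at this
      exact adj_anti (by omega) this
  · intro γ a ha
    refine adj_ind (p := fun a => ∃ z ∈ Z, z ∈ H (γ - one) ∧ Del z = a) ?_
      ⟨0, zero_mem _, zero_mem _, map_zero _⟩ ?_ ?_ ha
    · intro j i δ f hf h1 h2
      by_cases hN : N ≤ i
      · obtain ⟨z, z1, z2, z3⟩ := h.ex (h.anti' hN hf)
        refine ⟨s (w ^ j) * z, Z.mul_mem (s_Z _ (powZ j)) z1, ?_, ?_⟩
        · have := mul_H (s_H (powH j)) z2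
          have e2 : j • ω + (δ - one) = γ - one := by rw [← h2]; abel
          rwa [e2] at this
        · have e3 : Del (s (w ^ j)) = 0 := by
            rcases spow j with e | e
            · rw [e, Dpow]
            · rw [e, map_neg, Dpow, neg_zero]
          rw [hDel.mul, e3, zero_mul, zero_add, hs.s_s, z3]
      · rcases hc with hc | ⟨z, z1, z2, z3⟩
        · exfalso; rw [hc] at h1; simp at h1; omega
        · have hjc : c ≤ j := by
            by_contra hlt
            have h5 : j * κ ≤ c * κ := Nat.mul_le_mul_right _ (by omega)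
            omega
          obtain ⟨j', rfl⟩ := Nat.exists_eq_add_of_le hjc
          refine ⟨z * (w ^ j' * f), Z.mul_mem z1 (Z.mul_mem (powZ _) (h.Z_mem hf)), ?_, ?_⟩
          · have := mul_H z2 (mul_H (powH j') (h.H_mem hf))
            have e2 : c • ω - one + (j' • ω + δ) = γ - one := by
              rw [← h2, add_smul]; abel
            rwa [e2] at this
          · rw [hDel.mul, z3, hDel.mul (w ^ j'), Dpow, h.D_eq hf, zero_mul, mul_zero, add_zero,
              mul_zero, add_zero, pow_add, mul_assoc]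
    · rintro x y ⟨z, z1, z2, z3⟩ ⟨z', z1', z2', z3'⟩
      exact ⟨z + z', add_mem z1 z1', add_mem z2 z2', by rw [map_add, z3, z3']⟩
    · rintro q x ⟨z, z1, z2, z3⟩
      exact ⟨q • z, Z.smul_mem z1 q, Submodule.smul_mem _ q z2, by rw [map_smul, z3]⟩

end

end AnWL.Nd
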