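import Pool.Agent.Helper23.OC.A01
import Pool.Agent.Helper57.G2.ChF

/-!
# Project OC: nodes as systems of operators

`NR.sg`, `NR.D_od`, ..: the axioms of a node ring in the language of `Psi.lean`; `NR.LvS L`: the elements of level `L`
as a subalgebra; `ND.ΔL`, `ND.rL`, `ND.EL`: the operators of a node as linear maps; `ND.br`: they form a system `Br`.
-/

set_option autoImplicit false

namespace AnOC
open AnWL.Nd

variable {M Γ : Type} [AddCommGroup Γ] {xd : M → Γ} {e d : Γ} {N : NR M Γ xd e d}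

theorem NR.pd_self (N : NR M Γ xd e d) (j : M) (a : N.A) : N.pd j (N.pd j a) = 0 := by
  have h := N.pd_pd j j a
  apply two_cancel
  rw [add_zero]
  nth_rewrite 1 [h]
  rw [neg_add_cancel]

/-- The elements of level `L` as a subalgebra. -/
def NR.LvS (N : NR M Γ xd e d) (L : Finset M) : Subalgebra ℚ N.A where
  carrier := {a | N.Lv L a}
  mul_mem' {a b} ha hb j hj := by
    rw [N.pd_mul, ha j hj, hb j hj, zero_mul, mul_zero, add_zero]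
  add_mem' {a b} ha hb j hj := by rw [map_add, ha j hj, hb j hj, add_zero]
  algebraMap_mem' r j _ := by
    rw [Algebra.algebraMap_eq_smul_one, map_smul, (N.pd_od j).one, smul_zero]

theorem NR.mem_LvS {L : Finset M} {a : N.A} : a ∈ N.LvS L ↔ N.Lv L a := Iff.rfl

theorem NR.LvS_D {L : Finset M} {a : N.A} (ha : a ∈ N.LvS L) : N.D a ∈ N.LvS L := by
  intro j hj
  rw [N.pd_D, ha j hj, map_zero, neg_zero]

theorem NR.LvS_dx {L : Finset M} {a : N.A} (ha : a ∈ N.LvS L) : N.dx a ∈ N.LvS L := by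
  intro j hj
  rw [← N.dx_pd, ha j hj, map_zero]

theorem NR.LvS_pd {L : Finset M} {a : N.A} (ha : a ∈ N.LvS L) (i : M) : N.pd i a ∈ N.LvS L := by
  intro j hj
  rw [N.pd_pd, ha j hj, map_zero, neg_zero]

theorem NR.LvS_s {L : Finset M} {a : N.A} (ha : a ∈ N.LvS L) : N.s a ∈ N.LvS L := by
  intro j hj
  have h := N.s_pd j a
  rw [ha j hj, map_zero] at h
  exact neg_eq_zero.1 h.symm

theorem NR.LvS_ev {L : Finset M} {a : N.A} (ha : a ∈ N.LvS L) : N.ev a ∈ N.LvS L := by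
  intro j hj
  rw [← N.ev_pd, ha j hj, map_zero]

theorem NR.LvS_mono {L L' : Finset M} (h : L ⊆ L') {a : N.A} (ha : a ∈ N.LvS L) :
    a ∈ N.LvS L' := fun j hj => ha j fun hjL => hj (h hjL)

/-- Inverses of even elements of level `L` are of level `L`. -/
theorem NR.LvS_inv {L : Finset M} {a b : N.A} (ha : a ∈ N.LvS L) (hs : N.s a = a)
    (hab : a * b = 1) : b ∈ N.LvS L := by
  intro j hj
  rw [(N.pd_od j).inv N.sg hs hab, ha j hj, mul_zero, zero_mul, neg_zero]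

theorem ND.ΔL_apply (ν : ND N) (a : N.A) : ν.ΔL a = ν.Δ a := rfl

theorem ND.rL_apply (ν : ND N) (j : M) (a : N.A) : ν.rL j a = ν.r j a := rfl

theorem ND.EL_apply (ν : ND N) (a : N.A) : ν.EL a = ν.E a := rfl

theorem ND.wd_rl (ν : ND N) (l : List M) (a : N.A) : wd ν.rL a l = ν.rl l a := by
  induction l with
  | nil => rfl
  | cons t l ih => show ν.rL t (wd ν.rL a l) = ν.r t (ν.rl l a); rw [ih]; rfl

theorem ND.ΔL_od {ν : ND N} (h : N.s ν.P = -ν.P) : OD N.s ν.ΔL :=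
  N.D_od.add_smul_ED N.sg N.dx_ed h

theorem ND.rL_od {ν : ND N} {j : M} (h : N.s (ν.ρ j) = -ν.ρ j) : OD N.s (ν.rL j) :=
  (N.pd_od j).add_smul_ED N.sg N.dx_ed h

theorem ND.EL_ed {ν : ND N} (h : N.s (ν.φ : N.A) = ν.φ) : ED N.s ν.EL :=
  N.dx_ed.smul N.sg h

theorem ND.ΔΔ {ν : ND N} (hP : N.s ν.P = -ν.P) (h : ν.Δ ν.P = 0) (a : N.A) :
    ν.Δ (ν.Δ a) = 0 := by
  have h1 : ν.P * ν.P = 0 := N.sg.odd_sq hP
  have h2 : N.D ν.P + ν.P * N.dx ν.P = 0 := h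
  unfold ND.Δ
  rw [map_add, N.D_D, N.D_mul, map_add, N.dx_mul, N.dx_D, hP, zero_add]
  have e : N.D ν.P * N.dx a + -ν.P * N.D (N.dx a) + ν.P * (N.D (N.dx a) +
      (N.dx ν.P * N.dx a + ν.P * N.dx (N.dx a))) =
      (N.D ν.P + ν.P * N.dx ν.P) * N.dx a + (ν.P * ν.P) * N.dx (N.dx a) := by
    noncomm_ring
  rw [e, h1, h2, zero_mul, zero_mul, add_zero]

theorem ND.ΔE {ν : ND N} (hφ : N.s (ν.φ : N.A) = ν.φ)
    (h : ν.Δ (ν.φ : N.A) = ν.E ν.P) (a : N.A) : ν.Δ (ν.E a) = ν.E (ν.Δ a) := by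
  have h2 : N.D (ν.φ : N.A) + ν.P * N.dx (ν.φ : N.A) = (ν.φ : N.A) * N.dx ν.P := h
  have h3 : ν.P * (ν.φ : N.A) = (ν.φ : N.A) * ν.P := (N.even_comm _ _ hφ).symm
  unfold ND.Δ ND.E
  rw [N.D_mul, N.dx_mul, hφ, map_add, N.dx_mul, N.dx_D]
  have e : N.D (ν.φ : N.A) * N.dx a + (ν.φ : N.A) * N.D (N.dx a) +
      ν.P * (N.dx (ν.φ : N.A) * N.dx a + (ν.φ : N.A) * N.dx (N.dx a)) =
      (N.D (ν.φ : N.A) + ν.P * N.dx (ν.φ : N.A)) * N.dx a + (ν.φ : N.A) * N.D (N.dx a) +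
      (ν.P * (ν.φ : N.A)) * N.dx (N.dx a) := by
    noncomm_ring
  rw [e, h2, h3]
  noncomm_ring

theorem ND.Δr {ν : ND N} {j : M} (hP : N.s ν.P = -ν.P) (hρ : N.s (ν.ρ j) = -ν.ρ j)
    (h : ν.Δ (ν.ρ j) = -ν.r j ν.P) (a : N.A) : ν.Δ (ν.r j a) = -ν.r j (ν.Δ a) := by
  have h2 : N.D (ν.ρ j) + ν.P * N.dx (ν.ρ j) = -(N.pd j ν.P + ν.ρ j * N.dx ν.P) := h
  have h3 : ν.P * ν.ρ j = -(ν.ρ j * ν.P) := N.odd_anti _ _ hP hρ
  unfold ND.Δ ND.r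
  rw [map_add, map_add, map_add, map_add, N.D_mul, N.dx_mul, N.pd_mul, N.dx_mul, hP, hρ,
    N.pd_D, N.dx_pd, N.dx_D]
  have e : -N.D (N.pd j a) + (N.pd j ν.P * N.dx a + -ν.P * N.pd j (N.dx a)) +
      ν.ρ j * (N.D (N.dx a) + (N.dx ν.P * N.dx a + ν.P * N.dx (N.dx a))) =
      -N.D (N.pd j a) + (N.pd j ν.P + ν.ρ j * N.dx ν.P) * N.dx a - ν.P * N.pd j (N.dx a) +
      ν.ρ j * N.D (N.dx a) + (ν.ρ j * ν.P) * N.dx (N.dx a) := by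
    noncomm_ring
  have e2 : N.D (N.pd j a) + (N.D (ν.ρ j) * N.dx a + -ν.ρ j * N.D (N.dx a)) +
      ν.P * (N.pd j (N.dx a) + (N.dx (ν.ρ j) * N.dx a + ν.ρ j * N.dx (N.dx a))) =
      N.D (N.pd j a) + (N.D (ν.ρ j) + ν.P * N.dx (ν.ρ j)) * N.dx a - ν.ρ j * N.D (N.dx a) +
      ν.P * N.pd j (N.dx a) + (ν.P * ν.ρ j) * N.dx (N.dx a) := by
    noncomm_ring
  rw [e, e2, h2, h3]
  noncomm_ring

theorem ND.rr {ν : ND N} {i j : M} (hφ : N.s (ν.φ : N.A) = ν.φ) (hi : N.s (ν.ρ i) = -ν.ρ i)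
    (hj : N.s (ν.ρ j) = -ν.ρ j) (a : N.A) :
    ν.r i (ν.r j a) + ν.r j (ν.r i a) = ν.g i j * ν.E a := by
  have h3 : ν.ρ i * ν.ρ j = -(ν.ρ j * ν.ρ i) := N.odd_anti _ _ hi hj
  have h4 : ∀ b : N.A, ((ν.φ⁻¹ : N.Aˣ) : N.A) * b * (ν.φ : N.A) = b := by
    intro b
    rw [mul_assoc, ← N.even_comm _ b hφ, ← mul_assoc, Units.inv_mul, one_mul]
  have h5 : ν.g i j * ν.E a = (ν.r i (ν.ρ j) + ν.r j (ν.ρ i)) * N.dx a := by
    unfold ND.g ND.E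
    rw [← mul_assoc, h4]
  rw [h5]
  unfold ND.r
  rw [map_add, map_add, map_add, map_add, N.dx_mul, N.dx_mul, N.pd_mul, N.pd_mul, hi, hj,
    N.dx_pd, N.dx_pd, N.pd_pd j i]
  have e : N.pd i (N.pd j a) + (N.pd i (ν.ρ j) * N.dx a + -ν.ρ j * N.pd i (N.dx a)) +
      ν.ρ i * (N.pd j (N.dx a) + (N.dx (ν.ρ j) * N.dx a + ν.ρ j * N.dx (N.dx a))) +
      (-N.pd i (N.pd j a) + (N.pd j (ν.ρ i) * N.dx a + -ν.ρ i * N.pd j (N.dx a)) +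
      ν.ρ j * (N.pd i (N.dx a) + (N.dx (ν.ρ i) * N.dx a + ν.ρ i * N.dx (N.dx a)))) =
      (N.pd i (ν.ρ j) + ν.ρ i * N.dx (ν.ρ j) + (N.pd j (ν.ρ i) + ν.ρ j * N.dx (ν.ρ i))) * N.dx a +
      (ν.ρ i * ν.ρ j + ν.ρ j * ν.ρ i) * N.dx (N.dx a) := by
    noncomm_ring
  rw [e, h3, neg_add_cancel, zero_mul, add_zero]

theorem ND.rE {ν : ND N} {j : M} (hφ : N.s (ν.φ : N.A) = ν.φ) (a : N.A) :
    ν.r j (ν.E a) - ν.E (ν.r j a) = ν.h j * ν.E a := by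
  have h4 : ∀ b : N.A, ((ν.φ⁻¹ : N.Aˣ) : N.A) * b * (ν.φ : N.A) = b := by
    intro b
    rw [mul_assoc, ← N.even_comm _ b hφ, ← mul_assoc, Units.inv_mul, one_mul]
  have h3 : ν.ρ j * (ν.φ : N.A) = (ν.φ : N.A) * ν.ρ j := (N.even_comm _ _ hφ).symm
  have h5 : ν.h j * ν.E a = (ν.r j (ν.φ : N.A) - ν.E (ν.ρ j)) * N.dx a := by
    have := h4 (ν.r j (ν.φ : N.A) - ν.E (ν.ρ j))
    show ν.h j * ((ν.φ : N.A) * N.dx a) = _
    rw [ND.h, ← mul_assoc, this]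
  rw [h5]
  unfold ND.r ND.E
  rw [map_add, N.dx_mul, N.dx_mul, N.pd_mul, hφ, N.dx_pd]
  have e : N.pd j (ν.φ : N.A) * N.dx a + (ν.φ : N.A) * N.pd j (N.dx a) +
      ν.ρ j * (N.dx (ν.φ : N.A) * N.dx a + (ν.φ : N.A) * N.dx (N.dx a)) =
      N.pd j (ν.φ : N.A) * N.dx a + (ν.φ : N.A) * N.pd j (N.dx a) +
      ν.ρ j * N.dx (ν.φ : N.A) * N.dx a + (ν.ρ j * (ν.φ : N.A)) * N.dx (N.dx a) := by
    noncomm_ring
  rw [e, h3]
  noncomm_ring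

theorem ND.LvS_Δ {ν : ND N} {L : Finset M} (hP : ν.P ∈ N.LvS L) {a : N.A} (ha : a ∈ N.LvS L) :
    ν.Δ a ∈ N.LvS L :=
  add_mem (NR.LvS_D ha) (mul_mem hP (NR.LvS_dx ha))

theorem ND.LvS_r {ν : ND N} {L : Finset M} {j : M} (hρ : ν.ρ j ∈ N.LvS L) {a : N.A}
    (ha : a ∈ N.LvS L) : ν.r j a ∈ N.LvS L :=
  add_mem (NR.LvS_pd ha j) (mul_mem hρ (NR.LvS_dx ha))

theorem ND.LvS_E {ν : ND N} {L : Finset M} (hφ : (ν.φ : N.A) ∈ N.LvS L) {a : N.A}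
    (ha : a ∈ N.LvS L) : ν.E a ∈ N.LvS L :=
  mul_mem hφ (NR.LvS_dx ha)

/-- A node gives a system of operators. -/
theorem ND.br {ν : ND N} (h : ν.Ok) :
    Br N.s (N.LvS ν.L) ν.ΔL ν.EL (ν.L : Set M) ν.rL ν.g ν.h where
  sg := N.sg
  Del_od := ND.ΔL_od h.P_s
  E_ed := ND.EL_ed h.φ_s
  r_od t ht := ND.rL_od (h.ρ_s t ht)
  Del_Λ a ha := ND.LvS_Δ h.P_fn.1 ha
  E_Λ a ha := ND.LvS_E h.φ_fn.1 ha
  r_Λ t ht a ha := ND.LvS_r (h.ρ_fn t ht).1 ha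
  DD a _ := ND.ΔΔ h.P_s h.ΔP a
  DE a _ := ND.ΔE h.φ_s h.Δφ a
  Dr t ht a _ := ND.Δr h.P_s (h.ρ_s t ht) (h.Δρ t ht) a
  rr t ht t' ht' a _ := ND.rr h.φ_s (h.ρ_s t ht) (h.ρ_s t' ht') a
  rE t _ a _ := ND.rE h.φ_s a

end AnOC
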