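import Pool.Agent.Helper57.G2.Nod

/-!
# Project OC: poles along an even regular element `W`

`NR.AA W`: the elements `a` with `W ^ c * a ∈ R` for some `c` (a subalgebra, stable under the operators);
`NR.ZZ L W`: those of level `L`.
-/

set_option autoImplicit false

namespace AnOC
open AnWL.Nd

variable {M Γ : Type} [AddCommGroup Γ] {xd : M → Γ} {e d : Γ} {N : NR M Γ xd e d}

/-- `W` is an even regular element. -/
structure NR.Ev (N : NR M Γ xd e d) (W : N.A) : Prop where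
  s : N.s W = W
  R : W ∈ N.R

theorem NR.Ev.pow {W : N.A} (h : N.Ev W) (c : ℕ) : N.Ev (W ^ c) :=
  ⟨by rw [map_pow, h.s], N.R.pow_mem h.R c⟩

theorem NR.Ev.mul {W W' : N.A} (h : N.Ev W) (h' : N.Ev W') : N.Ev (W * W') :=
  ⟨by rw [map_mul, h.s, h'.s], N.R.mul_mem h.R h'.R⟩

theorem NR.Ev.comm {W : N.A} (h : N.Ev W) (a : N.A) : W * a = a * W := N.even_comm W a h.s

theorem NR.Ev.le {W : N.A} (h : N.Ev W) {a : N.A} {c c' : ℕ} (hc : c ≤ c')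
    (ha : W ^ c * a ∈ N.R) : W ^ c' * a ∈ N.R := by
  obtain ⟨k, rfl⟩ := Nat.exists_eq_add_of_le hc
  rw [add_comm, pow_add, mul_assoc]
  exact N.R.mul_mem (N.R.pow_mem h.R k) ha

theorem NR.Ev.mul_pow {W : N.A} (h : N.Ev W) {a b : N.A} (c c' : ℕ) :
    W ^ (c + c') * (a * b) = (W ^ c * a) * (W ^ c' * b) := by
  rw [pow_add, mul_assoc, mul_assoc, ← mul_assoc (W ^ c') a b, (h.pow c').comm a, mul_assoc]

/-- Poles along `W`. -/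
def NR.AA (N : NR M Γ xd e d) {W : N.A} (h : N.Ev W) : Subalgebra ℚ N.A where
  carrier := {a | ∃ c : ℕ, W ^ c * a ∈ N.R}
  mul_mem' := by
    rintro a b ⟨c, hc⟩ ⟨c', hc'⟩
    refine ⟨c + c', ?_⟩
    rw [h.mul_pow]
    exact N.R.mul_mem hc hc'
  add_mem' := by
    rintro a b ⟨c, hc⟩ ⟨c', hc'⟩
    refine ⟨max c c', ?_⟩
    rw [mul_add]
    exact N.R.add_mem (h.le (le_max_left _ _) hc) (h.le (le_max_right _ _) hc')
  algebraMap_mem' r := ⟨0, by rw [pow_zero, one_mul]; exact N.R.algebraMap_mem r⟩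

theorem NR.mem_AA {W : N.A} {h : N.Ev W} {a : N.A} : a ∈ N.AA h ↔ ∃ c : ℕ, W ^ c * a ∈ N.R :=
  Iff.rfl

theorem NR.AA_R {W : N.A} (h : N.Ev W) {a : N.A} (ha : a ∈ N.R) : a ∈ N.AA h :=
  ⟨0, by rw [pow_zero, one_mul]; exact ha⟩

theorem NR.AA_OD {W : N.A} (h : N.Ev W) {O : N.A →ₗ[ℚ] N.A} (hO : OD N.s O)
    (hR : ∀ a ∈ N.R, O a ∈ N.R) {a : N.A} (ha : a ∈ N.AA h) : O a ∈ N.AA h := by
  obtain ⟨c, hc⟩ := ha
  refine ⟨c + c, ?_⟩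
  have h1 := hR _ hc
  rw [hO.mul, (h.pow c).s] at h1
  have h2 : W ^ (c + c) * O a = W ^ c * (O (W ^ c) * a + W ^ c * O a) - O (W ^ c) * (W ^ c * a) := by
    rw [mul_add, pow_add, mul_assoc, ← mul_assoc (W ^ c) (O (W ^ c)) a, (h.pow c).comm (O (W ^ c)),
      mul_assoc (O (W ^ c))]
    abel
  rw [h2]
  exact N.R.sub_mem (N.R.mul_mem (h.pow c).R h1) (N.R.mul_mem (hR _ (h.pow c).R) hc)

theorem NR.AA_ED {W : N.A} (h : N.Ev W) {O : N.A →ₗ[ℚ] N.A} (hO : ED N.s O)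
    (hR : ∀ a ∈ N.R, O a ∈ N.R) {a : N.A} (ha : a ∈ N.AA h) : O a ∈ N.AA h := by
  obtain ⟨c, hc⟩ := ha
  refine ⟨c + c, ?_⟩
  have h1 := hR _ hc
  rw [hO.mul] at h1
  have h2 : W ^ (c + c) * O a = W ^ c * (O (W ^ c) * a + W ^ c * O a) - O (W ^ c) * (W ^ c * a) := by
    rw [mul_add, pow_add, mul_assoc, ← mul_assoc (W ^ c) (O (W ^ c)) a, (h.pow c).comm (O (W ^ c)),
      mul_assoc (O (W ^ c))]
    abel
  rw [h2]
  exact N.R.sub_mem (N.R.mul_mem (h.pow c).R h1) (N.R.mul_mem (hR _ (h.pow c).R) hc)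

theorem NR.AA_D {W : N.A} {h : N.Ev W} {a : N.A} (ha : a ∈ N.AA h) : N.D a ∈ N.AA h :=
  NR.AA_OD h N.D_od N.D_R ha

theorem NR.AA_pd {W : N.A} {h : N.Ev W} {a : N.A} (ha : a ∈ N.AA h) (j : M) :
    N.pd j a ∈ N.AA h := NR.AA_OD h (N.pd_od j) (N.pd_R j) ha

theorem NR.AA_dx {W : N.A} {h : N.Ev W} {a : N.A} (ha : a ∈ N.AA h) : N.dx a ∈ N.AA h :=
  NR.AA_ED h N.dx_ed N.dx_R ha

theorem NR.AA_s {W : N.A} {h : N.Ev W} {a : N.A} (ha : a ∈ N.AA h) : N.s a ∈ N.AA h := by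
  obtain ⟨c, hc⟩ := ha
  refine ⟨c, ?_⟩
  have := N.s_R _ hc
  rwa [map_mul, (h.pow c).s] at this

/-- Poles along `W` and level `L`. -/
def NR.ZZ (N : NR M Γ xd e d) (L : Finset M) {W : N.A} (h : N.Ev W) : Subalgebra ℚ N.A :=
  N.LvS L ⊓ N.AA h

theorem NR.mem_ZZ {L : Finset M} {W : N.A} {h : N.Ev W} {a : N.A} :
    a ∈ N.ZZ L h ↔ N.Lv L a ∧ ∃ c : ℕ, W ^ c * a ∈ N.R := Iff.rfl

theorem NR.ZZ_s {L : Finset M} {W : N.A} {h : N.Ev W} {a : N.A} (ha : a ∈ N.ZZ L h) :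
    N.s a ∈ N.ZZ L h := ⟨NR.LvS_s ha.1, NR.AA_s ha.2⟩

theorem NR.ZZ_D {L : Finset M} {W : N.A} {h : N.Ev W} {a : N.A} (ha : a ∈ N.ZZ L h) :
    N.D a ∈ N.ZZ L h := ⟨NR.LvS_D ha.1, NR.AA_D ha.2⟩

theorem NR.ZZ_dx {L : Finset M} {W : N.A} {h : N.Ev W} {a : N.A} (ha : a ∈ N.ZZ L h) :
    N.dx a ∈ N.ZZ L h := ⟨NR.LvS_dx ha.1, NR.AA_dx ha.2⟩

theorem NR.ZZ_pd {L : Finset M} {W : N.A} {h : N.Ev W} {a : N.A} (ha : a ∈ N.ZZ L h) (j : M) :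
    N.pd j a ∈ N.ZZ L h := ⟨NR.LvS_pd ha.1 j, NR.AA_pd ha.2 j⟩

/-- More poles. -/
theorem NR.AA_le {W V : N.A} (h : N.Ev W) (hV : N.Ev V) (h' : N.Ev (W * V)) :
    N.AA h ≤ N.AA h' := by
  rintro a ⟨c, hc⟩
  refine ⟨c, ?_⟩
  have e1 : (W * V) ^ c = V ^ c * W ^ c := by
    rw [← (h.pow c).comm (V ^ c)]
    exact (Commute.mul_pow (h.comm V) c)
  rw [e1, mul_assoc]
  exact N.R.mul_mem (hV.pow c).R hc

theorem NR.ZZ_le {L : Finset M} {W V : N.A} (h : N.Ev W) (hV : N.Ev V) (h' : N.Ev (W * V)) :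
    N.ZZ L h ≤ N.ZZ L h' := fun _ ha => ⟨ha.1, NR.AA_le h hV h' ha.2⟩

/-- The coordinate `x = int 1`. -/
theorem NR.dx_x (N : NR M Γ xd e d) : N.dx (N.int 1) = 1 := N.dx_int 1

theorem NR.pd_x (N : NR M Γ xd e d) (j : M) : N.pd j (N.int 1) = 0 := by
  have h1 : N.dx (N.pd j (N.int 1)) = 0 := by rw [N.dx_pd, N.dx_x, (N.pd_od j).one]
  rw [← N.ev_of _ h1, N.ev_pd, N.ev_int, map_zero]

theorem NR.D_x (N : NR M Γ xd e d) : N.D (N.int 1) = 0 := by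
  have h1 : N.dx (N.D (N.int 1)) = 0 := by rw [N.dx_D, N.dx_x, N.D_od.one]
  rw [← N.ev_of _ h1, N.ev_D, N.ev_int, map_zero]

theorem NR.x_lv (N : NR M Γ xd e d) (L : Finset M) : N.int 1 ∈ N.LvS L := fun j _ => N.pd_x j

theorem ND.E_x (ν : ND N) : ν.E (N.int 1) = ν.φ := by rw [ND.E, N.dx_x, mul_one]

theorem ND.Δ_x (ν : ND N) : ν.Δ (N.int 1) = ν.P := by rw [ND.Δ, N.D_x, N.dx_x, mul_one, zero_add]

theorem ND.r_x (ν : ND N) (j : M) : ν.r j (N.int 1) = ν.ρ j := by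
  rw [ND.r, N.pd_x, N.dx_x, mul_one, zero_add]

/-- The functions on a node: `N.ZZ ν.L h.Q_ev`. -/
theorem ND.Ok.Q_ev {ν : ND N} (h : ν.Ok) : N.Ev (ν.Q : N.A) := ⟨h.Q_s, N.I_le _ h.Q_I⟩

theorem ND.Ok.mem_zz {ν : ND N} (h : ν.Ok) {a : N.A} : a ∈ N.ZZ ν.L h.Q_ev ↔ ν.Fn a := Iff.rfl

end AnOC
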